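import Pool.Agent.Lib.P2baC.Defs

/-!
# P2baC.Circ: two triples of points on a circle

PROOF of `circ`.  `L = 2 M`, `M ≥ 1`.  Let `D0 := L + 2 - n` (an integer).  Choose `S : ℕ` with
`S ≡ z 0 - z' 0` mod 2, `D0 ≤ S` and (`S ≤ 1` or `S ≤ D0 + 1`).  Let `α := S / 2`, `β := S - α`.
(i) `3 (α - 1) + 3 (β - 1) < M` with truncated subtractions: if `S ≤ 1` the left side is 0; else
`α, β ≥ 1` and it is `3 S - 6 ≤ 3 D0 - 3`, and `6 D0 ≤ L + 4` (from `h`), so `6 D0 - 6 < L`.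
(ii) Write `z i - z 0 = 2 u i`, and `z 0 + α - z' i = β - 2 u' i` (parity: `z 0 - z' i ≡ S = α + β`).
The residues `u i - s` (`1 ≤ s ≤ α - 1`) and `u' i - s` (`1 ≤ s ≤ β - 1`) mod `M` are fewer than `M`
in number, so there is `k : ℤ` with `¬ (M ∣ k - u i + s)` for all `i` and `1 ≤ s ≤ α - 1`, and
`¬ (M ∣ k - u' i + s)` for all `i` and `1 ≤ s ≤ β - 1` (work in `ZMod M`, `Fintype.card = M`, a
finset with fewer than `M` elements is not everything).
(iii) Let `T := z 0 + α + 2 k`.  `T - z i = α + 2 (k - u i)`, `T - z' i = β + 2 (k - u' i)`.  For all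
`m : ℤ`: `|T - z i - L m| ≥ α`; indeed it is `|α + 2 c|`, `c = k - u i - M m`; if this is `< α` then
`-α < c < 0`, and `s = -c` contradicts (ii).  The same with primes.
(iv) `v i := (T - z i) / L` (floor), `ρ := (T - z i) % L ∈ [0, L)`, `ρ = T - z i - L (v i)`.  By (iii)
for `m = v i` and `m = v i + 1`: `α ≤ ρ ≤ L - α`.  With `t := T - M`: `z i + L v i - t = M - ρ`, so
`|z i + L v i - t| ≤ M - α =: D` (`α ≤ M` by (i)).  The same for `z'`, `D' := M - β`.
`D + D' + 2 = L - S + 2 ≤ L - D0 + 2 ≤ n`.  (For `D0 < 0` the inequality is even better.)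
`center`: `v i := (t + M - z i) / L`; then `t + M - L < z i + L v i ≤ t + M`.
-/

set_option autoImplicit false

namespace P2baC

private theorem pick {M : ℕ} (hM : 0 < M) (a b : ℕ) (hab : 3 * a + 3 * b < M)
    (u u' : Fin 3 → ℤ) :
    ∃ k : ℤ, (∀ i, ∀ s : ℕ, 1 ≤ s → s ≤ a → ¬ (M : ℤ) ∣ k - u i + s) ∧
      (∀ i, ∀ s : ℕ, 1 ≤ s → s ≤ b → ¬ (M : ℤ) ∣ k - u' i + s) := by
  classical
  have : NeZero M := ⟨hM.ne'⟩
  let B₁ : Finset (ZMod M) := (Finset.univ : Finset (Fin 3 × Fin a)).image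
    (fun p => ((u p.1 - ((p.2 : ℕ) + 1 : ℤ) : ℤ) : ZMod M))
  let B₂ : Finset (ZMod M) := (Finset.univ : Finset (Fin 3 × Fin b)).image
    (fun p => ((u' p.1 - ((p.2 : ℕ) + 1 : ℤ) : ℤ) : ZMod M))
  have h1 : B₁.card ≤ 3 * a := by
    refine Finset.card_image_le.trans ?_
    simp
  have h2 : B₂.card ≤ 3 * b := by
    refine Finset.card_image_le.trans ?_
    simp
  have h3 : (B₁ ∪ B₂).card < (Finset.univ : Finset (ZMod M)).card := by
    refine lt_of_le_of_lt (Finset.card_union_le _ _) ?_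
    rw [Finset.card_univ, ZMod.card]
    omega
  obtain ⟨x, -, hx⟩ := Finset.exists_mem_notMem_of_card_lt_card h3
  obtain ⟨k, hk⟩ := ZMod.intCast_surjective x
  rw [Finset.mem_union, not_or] at hx
  refine ⟨k, ?_, ?_⟩
  · intro i s hs1 hsa hdvd
    refine hx.1 (Finset.mem_image.2 ⟨(i, ⟨s - 1, by omega⟩), Finset.mem_univ _, ?_⟩)
    have h4 := (ZMod.intCast_zmod_eq_zero_iff_dvd (k - u i + s) M).2 hdvd
    have h5 : (((s - 1 : ℕ) : ℤ) + 1) = s := by omega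
    simp only [h5]
    rw [← hk]
    push_cast at h4 ⊢
    linear_combination -h4
  · intro i s hs1 hsa hdvd
    refine hx.2 (Finset.mem_image.2 ⟨(i, ⟨s - 1, by omega⟩), Finset.mem_univ _, ?_⟩)
    have h4 := (ZMod.intCast_zmod_eq_zero_iff_dvd (k - u' i + s) M).2 hdvd
    have h5 : (((s - 1 : ℕ) : ℤ) + 1) = s := by omega
    simp only [h5]
    rw [← hk]
    push_cast at h4 ⊢
    linear_combination -h4

private theorem half {M : ℕ} (hM : 0 < M) {α : ℕ} (hα : α ≤ M) (T w : ℤ)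
    (hw : ∀ m : ℤ, (α : ℤ) ≤ |T - w - (2 * M : ℕ) * m|) :
    ∃ v : ℤ, |w + (2 * M : ℕ) * v - (T - M)| ≤ ((M - α : ℕ) : ℤ) := by
  have hL0 : (0 : ℤ) < ((2 * M : ℕ) : ℤ) := by omega
  refine ⟨(T - w) / ((2 * M : ℕ) : ℤ), ?_⟩
  have h1 := Int.emod_add_mul_ediv (T - w) ((2 * M : ℕ) : ℤ)
  have h2 := Int.emod_nonneg (T - w) hL0.ne'
  have h3 := Int.emod_lt_of_pos (T - w) hL0
  set v := (T - w) / ((2 * M : ℕ) : ℤ) with hv
  set ρ := (T - w) % ((2 * M : ℕ) : ℤ) with hρ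
  have h4 := hw v
  have h5 := hw (v + 1)
  have h6 : T - w - ((2 * M : ℕ) : ℤ) * v = ρ := by linarith
  have h7 : T - w - ((2 * M : ℕ) : ℤ) * (v + 1) = ρ - ((2 * M : ℕ) : ℤ) := by
    rw [mul_add]
    linarith
  rw [h6, abs_of_nonneg h2] at h4
  rw [h7, abs_of_neg (by linarith)] at h5
  have h8 : w + ((2 * M : ℕ) : ℤ) * v - (T - M) = M - ρ := by linarith
  rw [h8, abs_le]
  push_cast at h5 ⊢
  rw [Nat.cast_sub hα]
  constructor <;> linarith

theorem circ {n L : ℕ} (hL : Even L) (hL0 : 0 < L) (h : 5 * L + 8 ≤ 6 * n) (z z' : Fin 3 → ℤ)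
    (hz : EvenT z) (hz' : EvenT z') :
    ∃ (t : ℤ) (v v' : Fin 3 → ℤ) (D D' : ℕ), (∀ i, |z i + L * v i - t| ≤ D) ∧
      (∀ i, |z' i + L * v' i - t| ≤ D') ∧ D + D' + 2 ≤ n := by
  obtain ⟨M, hM⟩ := hL
  have hLM : L = 2 * M := by omega
  subst hLM
  have hM0 : 0 < M := by omega
  obtain ⟨S, hS1, hS2, hS3⟩ : ∃ S : ℕ, (2 : ℤ) ∣ (S : ℤ) - (z 0 - z' 0) ∧
      2 * M + 2 ≤ n + S ∧ (S ≤ 1 ∨ S + n ≤ 2 * M + 3) := by
    rcases Int.emod_two_eq_zero_or_one
      (((2 * M + 2 - n : ℕ) : ℤ) - (z 0 - z' 0)) with hp | hp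
    · exact ⟨2 * M + 2 - n, by omega, by omega, by omega⟩
    · exact ⟨2 * M + 2 - n + 1, by push_cast; omega, by omega, by omega⟩
  set α := S / 2 with hα
  set β := S - α with hβ
  have hαβ : α + β = S := by omega
  have h3 : 3 * (α - 1) + 3 * (β - 1) < M := by omega
  have hαM : α ≤ M := by omega
  have hβM : β ≤ M := by omega
  have hu : ∀ i, ∃ u : ℤ, z i - z 0 = 2 * u := fun i => hz i 0
  choose u hu using hu
  have hu' : ∀ i, ∃ u : ℤ, z 0 + α - z' i = β - 2 * u := by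
    intro i
    obtain ⟨p, hp⟩ := hz' 0 i
    obtain ⟨q, hq⟩ := hS1
    refine ⟨(β - α) - p - (α + β) + q + α, ?_⟩
    have : (S : ℤ) = α + β := by omega
    linarith
  choose u' hu' using hu'
  obtain ⟨k, hk, hk'⟩ := pick hM0 (α - 1) (β - 1) h3 u u'
  have hw : ∀ i, ∀ m : ℤ, (α : ℤ) ≤ |(z 0 + α + 2 * k) - z i - (2 * M : ℕ) * m| := by
    intro i m
    by_contra hcon
    rw [not_le, abs_lt] at hcon
    have e : (z 0 + α + 2 * k) - z i - ((2 * M : ℕ) : ℤ) * m = α + 2 * (k - u i - M * m) := by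
      have := hu i
      push_cast
      linarith
    rw [e] at hcon
    set c := k - u i - (M : ℤ) * m with hc
    have hc1 : -(α : ℤ) < c := by linarith [hcon.1]
    have hc2 : c < 0 := by linarith [hcon.2]
    refine hk i (-c).toNat (by omega) (by omega) ⟨m, ?_⟩
    have : (((-c).toNat : ℕ) : ℤ) = -c := by omega
    rw [this]
    linarith
  have hw' : ∀ i, ∀ m : ℤ, (β : ℤ) ≤ |(z 0 + α + 2 * k) - z' i - (2 * M : ℕ) * m| := by
    intro i m
    by_contra hcon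
    rw [not_le, abs_lt] at hcon
    have e : (z 0 + α + 2 * k) - z' i - ((2 * M : ℕ) : ℤ) * m =
        β + 2 * (k - u' i - M * m) := by
      have := hu' i
      push_cast
      linarith
    rw [e] at hcon
    set c := k - u' i - (M : ℤ) * m with hc
    have hc1 : -(β : ℤ) < c := by linarith [hcon.1]
    have hc2 : c < 0 := by linarith [hcon.2]
    refine hk' i (-c).toNat (by omega) (by omega) ⟨m, ?_⟩
    have : (((-c).toNat : ℕ) : ℤ) = -c := by omega
    rw [this]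
    linarith
  choose v hv using fun i => half hM0 hαM (z 0 + α + 2 * k) (z i) (hw i)
  choose v' hv' using fun i => half hM0 hβM (z 0 + α + 2 * k) (z' i) (hw' i)
  exact ⟨z 0 + α + 2 * k - M, v, v', M - α, M - β, hv, hv', by omega⟩

theorem center {L M : ℕ} (hL : L = 2 * M) (hM : 0 < M) (z : Fin 3 → ℤ) (t : ℤ) :
    ∃ v : Fin 3 → ℤ, ∀ i, |z i + L * v i - t| ≤ M := by
  subst hL
  choose v hv using fun i => half hM (Nat.zero_le M) (t + M) (z i)
    (fun m => by simp)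
  refine ⟨v, fun i => ?_⟩
  have h := hv i
  rwa [add_sub_cancel_right, Nat.sub_zero] at h

end P2baC
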