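import Pool.Agent.Lib.P2baC.Defs

/-!
# P2baC.Compl: a 3-colouring gives a surjective homomorphism

PROOF.  `e u v j := if u = v then c u else if c u = j then 0 else if c v = j then 1 else 2`;
`f (inl (inl a)) = a`, `f (inl (inr t)) = σ t`, `f (inr ((u,v),(j,x))) = σ (x (e u v j))`.
Surjective by the first clause.  For the edges it suffices (by symmetry of `H`) that `Rel w w'`
implies `H (f w) (f w')`.  `Step1 t t'` implies `H (σ t) (σ t')` (`hσ` and symmetry).  The first four
clauses of `Rel` are clear.  Two vertices of the same gadget: the coordinate `e` is the same.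
Second clause, `p = (u,v)`, `F p`: then `c u ≠ c v`, so `u ≠ v`.
`p' = (u,u)`, `CR j 0 x' x`: `x' = Sub j a b`, `x = Sub 0 a' b'`; `f` of the gadget vertex at `x'` is
`σ (x' (c u)) = σ (if c u = j then a else b)`, that of `x` is `σ (if e = 0 then a' else b')`, and
`e = 0` iff `c u = j`.
`p' = (v,v)`, `CR j 1 x' x`: `x' = Sub j a b`, `x = Sub 1 a' b'`; `e = 1` iff `c v = j` (as `c u ≠ c v`).
-/

set_option autoImplicit false

namespace P2baC

theorem Step1.symm' {L : ℕ} {a b : ZMod L} (h : Step1 a b) : Step1 b a := by
  rcases h with h | h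
  · exact Or.inr (by rw [h]; ring)
  · exact Or.inl (by rw [h]; ring)

variable {V : Type} {L N : ℕ} {H : V → V → Prop} {σ : ZMod L → V} {F : Fin N × Fin N → Prop}

open Pool.Agent.Lib.P2ba8ab (SurjHom)

/-- the coordinate read off in the gadget `((u, v), j)` -/
def ev {N : ℕ} (c : Fin N → Fin 3) (p : Fin N × Fin N) (j : Fin 3) : Fin 3 :=
  if p.1 = p.2 then c p.1 else if c p.1 = j then 0 else if c p.2 = j then 1 else 2

theorem compl (hsym : ∀ a b, H a b → H b a) (hσ : ∀ i, H (σ i) (σ (i + 1))) (c : Fin N → Fin 3)
    (hc : ∀ u v, F (u, v) → c u ≠ c v) :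
    Pool.Agent.Lib.P2ba8ab.SurjHom (gr (N := N) H σ F) H := by
  have hst : ∀ s t : ZMod L, Step1 s t → H (σ s) (σ t) := by
    rintro s t (h | h)
    · rw [h]; exact hσ s
    · have : s = t + 1 := by rw [h]; ring
      rw [this]; exact hsym _ _ (hσ t)
  let f : W V L N → V := fun w => match w with
    | Sum.inl (Sum.inl a) => a
    | Sum.inl (Sum.inr t) => σ t
    | Sum.inr (p, (j, x)) => σ (x.1 (ev c p j))
  have hrel : ∀ w w', Rel H σ F w w' → H (f w) (f w') := by
    rintro ((a | t) | ⟨p, j, x⟩) ((a' | t') | ⟨p', j', x'⟩) h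
    · exact h
    · exact h
    · exact h.elim
    · exact h.elim
    · have h' : t' = t + 1 := h
      change H (σ t) (σ t')
      rw [h']; exact hσ t
    · exact hst _ _ (h _)
    · exact h.elim
    · exact h.elim
    · change H (σ (x.1 (ev c p j))) (σ (x'.1 (ev c p' j')))
      rcases h with ⟨rfl, rfl, h⟩ | ⟨hF, rfl, h⟩
      · exact hst _ _ (h _)
      · obtain ⟨u, v⟩ := p
        have hne := hc u v hF
        have huv : u ≠ v := fun h => hne (by rw [h])
        rcases h with ⟨rfl, a, b, a', b', h1, h2, h3, h4⟩ | ⟨rfl, a, b, a', b', h1, h2, h3, h4⟩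
        · rw [h1, h2]
          simp only [ev, Sub, huv, if_true, if_false]
          by_cases hu : c u = j
          · simp only [hu, if_true]
            exact hst _ _ h3.symm'
          · simp only [hu, if_false]
            have : (if c v = j then (1 : Fin 3) else 2) ≠ 0 := by split_ifs <;> decide
            simp only [this, if_false]
            exact hst _ _ h4.symm'
        · rw [h1, h2]
          simp only [ev, Sub, huv, if_true, if_false]
          by_cases hv : c v = j
          · have hu : c u ≠ j := fun h => hne (h.trans hv.symm)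
            simp only [hv, hu, if_true, if_false]
            exact hst _ _ h3.symm'
          · simp only [hv, if_false]
            have : (if c u = j then (0 : Fin 3) else 2) ≠ 1 := by split_ifs <;> decide
            simp only [this, if_false]
            exact hst _ _ h4.symm'
  refine ⟨f, fun w w' h => ?_, fun a => ⟨Sum.inl (Sum.inl a), rfl⟩⟩
  rcases (SimpleGraph.fromRel_adj _ _ _).1 h with ⟨-, h | h⟩
  · exact hrel _ _ h
  · exact hsym _ _ (hrel _ _ h)

end P2baC
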