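import Pool.Agent.Lib.P2baC.Final

/-!
# P2baC.Cycles: the case of cycles with arbitrary loops
-/

set_option autoImplicit false

namespace P2baC

open Pool.Agent.Lib.P2ba8ab

/-- the `n`-cycle with loops at the vertices in `S` -/
def cyc (n : ℕ) (S : Set (ZMod n)) (a b : ZMod n) : Prop := b = a + 1 ∨ b = a - 1 ∨ (b = a ∧ a ∈ S)

theorem cyc_symm (n : ℕ) (S : Set (ZMod n)) (a b : ZMod n) (h : cyc n S a b) : cyc n S b a := by
  rcases h with h | h | ⟨h, hS⟩
  · exact Or.inr (Or.inl (by rw [h]; ring))
  · exact Or.inl (by rw [h]; ring)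
  · subst h; exact Or.inr (Or.inr ⟨rfl, hS⟩)

/-- `n` even: the cycle itself -/
theorem data_even {n : ℕ} (hn : 8 ≤ n) (he : Even n) (S : Set (ZMod n)) :
    Data (cyc n S) n n 1 (id : ZMod n → ZMod n) (id : ZMod n → ZMod n) where
  symm := cyc_symm n S
  near := by
    rintro a b (h | h | ⟨h, -⟩)
    · exact Or.inr (Or.inl h)
    · exact Or.inr (Or.inr h)
    · exact Or.inl h
  surj := Function.surjective_id
  walk := fun i => Or.inl rfl
  dist := fun a => ⟨0, by omega, a, rfl⟩
  even := he
  pos := by omega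
  one := le_rfl
  num1 := by omega
  num2 := by omega

/-- `n` odd: the cycle, with one stop at a vertex with a loop -/
theorem data_odd {n : ℕ} (hn : 13 ≤ n) (ho : Odd n) (S : Set (ZMod n)) (h0 : (0 : ZMod n) ∈ S) :
    Data (cyc n S) n (n + 1) 1 (id : ZMod n → ZMod n)
      (fun i : ZMod (n + 1) => ((i.val : ℕ) : ZMod n)) where
  symm := cyc_symm n S
  near := by
    rintro a b (h | h | ⟨h, -⟩)
    · exact Or.inr (Or.inl h)
    · exact Or.inr (Or.inr h)
    · exact Or.inl h
  surj := Function.surjective_id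
  walk := by
    intro i
    by_cases h : i.val = n
    · have h1 : i + 1 = 0 := by
        have : ((i.val : ℕ) : ZMod (n + 1)) = i := ZMod.natCast_zmod_val i
        rw [← this, h]
        have h2 : ((n + 1 : ℕ) : ZMod (n + 1)) = 0 := ZMod.natCast_self _
        push_cast at h2
        exact h2
      have h2 : ((i.val : ℕ) : ZMod n) = 0 := by rw [h]; exact ZMod.natCast_self n
      rw [h1, ZMod.val_zero, h2]
      exact Or.inr (Or.inr ⟨by simp, h0⟩)
    · have hlt : i.val < n + 1 := ZMod.val_lt i
      have h1 : (i + 1).val = i.val + 1 := by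
        have h2 : (1 : ZMod (n + 1)).val = 1 := ZMod.val_one'' (by omega)
        rw [ZMod.val_add, h2, Nat.mod_eq_of_lt (by omega)]
      rw [h1]
      exact Or.inl (by push_cast; rfl)
  dist := by
    intro a
    have : NeZero n := ⟨by omega⟩
    refine ⟨0, by omega, ((a.val : ℕ) : ZMod (n + 1)), ?_⟩
    change a = _
    have h1 : a.val < n := ZMod.val_lt a
    rw [ZMod.val_natCast, Nat.mod_eq_of_lt (by omega)]
    exact (ZMod.natCast_zmod_val a).symm
  even := ho.add_one
  pos := by omega
  one := le_rfl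
  num1 := by omega
  num2 := by omega

/-- Surjective `H`-Colouring is NP-hard for every even cycle of length at least 8 with any set of
loops, and for every odd cycle of length at least 13 with a nonempty set of loops. -/
theorem cycles {n : ℕ} (S : Set (ZMod n)) (h : (8 ≤ n ∧ Even n) ∨ (13 ≤ n ∧ Odd n ∧ S.Nonempty)) :
    ∃ f : Gr → Gr, Nonempty (Turing.TM2ComputableInPolyTime Gr.encode Gr.encode f) ∧
      ∀ g, g.G.Colorable 3 ↔ SurjHom (f g).G (cyc n S) := by
  have hfin : 8 ≤ n := by rcases h with h | h <;> omega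
  have : NeZero n := ⟨by omega⟩
  rcases h with ⟨h1, h2⟩ | ⟨h1, h2, s, hs⟩
  · exact main (data_even h1 h2 S)
  · -- rotate the cycle
    obtain ⟨f, hf, hf'⟩ := main (data_odd h1 h2 {a | a + s ∈ S} (by simpa using hs))
    refine ⟨f, hf, fun g => (hf' g).trans ?_⟩
    constructor
    · rintro ⟨φ, h3, h4⟩
      refine ⟨fun w => φ w + s, fun a b hab => ?_, fun y => ?_⟩
      · rcases h3 a b hab with h | h | ⟨h, hS⟩
        · exact Or.inl (by simp only [h]; ring)
        · exact Or.inr (Or.inl (by simp only [h]; ring))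
        · exact Or.inr (Or.inr ⟨by simp only [h], hS⟩)
      · obtain ⟨w, hw⟩ := h4 (y - s)
        exact ⟨w, by simp only [hw]; ring⟩
    · rintro ⟨φ, h3, h4⟩
      refine ⟨fun w => φ w - s, fun a b hab => ?_, fun y => ?_⟩
      · rcases h3 a b hab with h | h | ⟨h, hS⟩
        · exact Or.inl (by simp only [h]; ring)
        · exact Or.inr (Or.inl (by simp only [h]; ring))
        · exact Or.inr (Or.inr ⟨by simp only [h], by simpa using hS⟩)
      · obtain ⟨w, hw⟩ := h4 (y + s)
        exact ⟨w, by simp only [hw]; ring⟩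

end P2baC
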