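import Pool.Agent.Lib.P2ba8ab.Poly

/-!
# Surjective homomorphisms to graphs which wind around a long cycle: definitions (MP_2ba8ab_lc)
-/

set_option autoImplicit false

namespace P2baC

/-- the residues are equal or differ by one -/
def Near {n : ℕ} (a b : ZMod n) : Prop := b = a ∨ b = a + 1 ∨ b = a - 1

/-- the residues differ by one -/
def Step1 {L : ℕ} (a b : ZMod L) : Prop := b = a + 1 ∨ b = a - 1

/-- triples of integers of the same parity -/
def EvenT (z : Fin 3 → ℤ) : Prop := ∀ i j, (2 : ℤ) ∣ z i - z j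

/-- reduction of a triple -/
def red {L : ℕ} (z : Fin 3 → ℤ) : Fin 3 → ZMod L := fun i => ((z i : ℤ) : ZMod L)

/-- triples of residues of integers of the same parity -/
def Good {L : ℕ} (x : Fin 3 → ZMod L) : Prop := ∃ z, EvenT z ∧ red z = x

/-- the diagonal -/
def Diag {L : ℕ} (x : Fin 3 → ZMod L) : Prop := ∀ i, x i = x 0

/-- the vertices of a gadget (the diagonal is shared by all gadgets) -/
def Pos (L : ℕ) : Type := {x : Fin 3 → ZMod L // Good x ∧ ¬ Diag x}

/-- the triple with the entry `a` at `i` and `b` elsewhere -/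
def Sub {L : ℕ} (i : Fin 3) (a b : ZMod L) : Fin 3 → ZMod L := fun l => if l = i then a else b

/-- the cross relation: `x` at the `j`-th axis of one gadget, `y` at the `i`-th axis of another -/
def CR {L : ℕ} (j i : Fin 3) (x y : Fin 3 → ZMod L) : Prop :=
  ∃ a b a' b', x = Sub j a b ∧ y = Sub i a' b' ∧ Step1 a a' ∧ Step1 b b'

/-- the vertices of the instance: a copy of `V`, the common cycle, and the gadgets -/
abbrev W (V : Type) (L N : ℕ) : Type := (V ⊕ ZMod L) ⊕ ((Fin N × Fin N) × (Fin 3 × Pos L))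

/-- the (directed) edges of the instance -/
def Rel {V : Type} {L N : ℕ} (H : V → V → Prop) (σ : ZMod L → V) (F : Fin N × Fin N → Prop) :
    W V L N → W V L N → Prop
  | Sum.inl (Sum.inl a), Sum.inl (Sum.inl b) => H a b
  | Sum.inl (Sum.inl a), Sum.inl (Sum.inr t) => H a (σ t)
  | Sum.inl (Sum.inr t), Sum.inl (Sum.inr t') => t' = t + 1
  | Sum.inl (Sum.inr t), Sum.inr (_, (_, x)) => ∀ i, Step1 t (x.1 i)
  | Sum.inr (p, (j, x)), Sum.inr (p', (j', x')) =>
      (p' = p ∧ j' = j ∧ ∀ i, Step1 (x.1 i) (x'.1 i)) ∨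
      (F p ∧ j' = 0 ∧ ((p' = (p.1, p.1) ∧ CR j 0 x'.1 x.1) ∨ (p' = (p.2, p.2) ∧ CR j 1 x'.1 x.1)))
  | _, _ => False

/-- the instance -/
def gr {V : Type} {L N : ℕ} (H : V → V → Prop) (σ : ZMod L → V) (F : Fin N × Fin N → Prop) :
    SimpleGraph (W V L N) := SimpleGraph.fromRel (Rel H σ F)

open Classical in
/-- the vertex of the gadget `q` at the position `x`, which may be a diagonal one -/
noncomputable def emb {V : Type} {L N : ℕ} (q : (Fin N × Fin N) × Fin 3) (x : Fin 3 → ZMod L) :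
    W V L N :=
  if h : Good x ∧ ¬ Diag x then Sum.inr (q.1, (q.2, ⟨x, h⟩)) else Sum.inl (Sum.inr (x 0))

/-- `Ψ` lifts `G`, starts at `k0` and changes by at most one in every step -/
structure Lift {n L : ℕ} (G : (Fin 3 → ZMod L) → ZMod n) (k0 : ℤ) (Ψ : (Fin 3 → ℤ) → ℤ) : Prop where
  zero : Ψ 0 = k0
  cast : ∀ z, EvenT z → ((Ψ z : ℤ) : ZMod n) = G (red z)
  step : ∀ z z', EvenT z → EvenT z' → (∀ i, |z' i - z i| = 1) → |Ψ z' - Ψ z| ≤ 1

/-- the data: a map `p` of `H` to the reflexive `n`-cycle, a closed walk `σ` of even length `L`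
which comes near to every vertex -/
structure Data {V : Type} (H : V → V → Prop) (n L r : ℕ) (p : V → ZMod n) (σ : ZMod L → V) :
    Prop where
  symm : ∀ a b, H a b → H b a
  near : ∀ a b, H a b → Near (p a) (p b)
  surj : Function.Surjective p
  walk : ∀ i, H (σ i) (σ (i + 1))
  dist : ∀ a, ∃ m, m ≤ r ∧ ∃ i, Pool.Agent.Lib.P2ba8ab.Walk H m a (σ i)
  even : Even L
  pos : 0 < L
  one : 1 ≤ r
  num1 : 4 * r + L + 4 ≤ 2 * n
  num2 : 5 * L + 8 ≤ 6 * n

end P2baC
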