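import Pool.Agent.Lib.P2baC.Glue

/-!
# P2baC.Emb: adjacency of the embedded positions

`hφ`: `φ` changes by at most one along the edges of the instance.  All the statements are of the form
`Near (φ w) (φ w')`; if `w = w'` use `Near` by equality, otherwise `(gr H σ F).Adj w w'`, which is
`w ≠ w' ∧ (Rel w w' ∨ Rel w' w)` (`SimpleGraph.fromRel_adj`).  `Near` is symmetric (`Near.symm`).
PROOFS.
`near_emb`: unfold `emb`, four cases.  Both positions non-diagonal: first clause of `Rel` for two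
gadget vertices.  `x` diagonal, `x'` not: `Rel (inl (inr t)) (inr _)`, `t = x 0`, as `x i = x 0` for all
`i`.  `x'` diagonal, `x` not: the same with the roles exchanged (`Step1` is symmetric).  Both
diagonal: `x' 0 = x 0 + 1` or `x 0 = x' 0 + 1`.
`near_cross`: let `x' = red (ax j m)` (entries `m` at `j`, `-m` elsewhere, as residues) and
`x = red (ax i (m+1))`; both are `Good` (`even_ax`).
(1) Both non-diagonal: `Rel (inr (p, (j, x))) (inr (p', (0, x')))` by the second clause, with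
`CR j i x' x`: `a = m, b = -m, a' = m + 1, b' = -m - 1`.
(2) `x'` diagonal, `x` not: all entries of `x'` are equal, so `m = -m` and `x' = (m,m,m)` (as residues;
`ax j m` has both an entry `m` and an entry `-m`, as `Fin 3` has at least two elements).  The entries
of `x` are `m + 1` and `-m - 1 = m - 1`: `Rel (inl (inr m)) (inr (p, (j, x)))`.
(3) `x` diagonal, `x'` not: `m + 1 = -(m+1)` and `x = (m+1, m+1, m+1)`; the entries of `x'` are
`m = (m+1) - 1` and `-m = (m+1) + 1`: `Rel (inl (inr (m+1))) (inr (p', (0, x')))`.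
(4) both diagonal: `inl (inr m)` and `inl (inr (m+1))` (up to equalities as before).
-/

set_option autoImplicit false

namespace P2baC

theorem Near.symm {n : ℕ} {a b : ZMod n} (h : Near a b) : Near b a := by
  rcases h with h | h | h
  · exact Or.inl h.symm
  · exact Or.inr (Or.inr (by rw [h]; ring))
  · exact Or.inr (Or.inl (by rw [h]; ring))

theorem Step1.symm {L : ℕ} {a b : ZMod L} (h : Step1 a b) : Step1 b a := by
  rcases h with h | h
  · exact Or.inr (by rw [h]; ring)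
  · exact Or.inl (by rw [h]; ring)

variable {V : Type} {L N n : ℕ} {H : V → V → Prop} {σ : ZMod L → V} {F : Fin N × Fin N → Prop}

theorem near_of_rel {φ : W V L N → ZMod n} (hφ : ∀ a b, (gr H σ F).Adj a b → Near (φ a) (φ b))
    {w w' : W V L N} (h : Rel H σ F w w') : Near (φ w) (φ w') := by
  by_cases hw : w = w'
  · rw [hw]; exact Or.inl rfl
  · exact hφ _ _ ((SimpleGraph.fromRel_adj _ _ _).2 ⟨hw, Or.inl h⟩)

theorem near_emb {φ : W V L N → ZMod n} (hφ : ∀ a b, (gr H σ F).Adj a b → Near (φ a) (φ b))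
    (q : (Fin N × Fin N) × Fin 3) (x x' : Fin 3 → ZMod L) (hx : Good x) (hx' : Good x')
    (h : ∀ i, Step1 (x i) (x' i)) : Near (φ (emb q x)) (φ (emb q x')) := by
  unfold emb
  by_cases hd : Diag x <;> by_cases hd' : Diag x'
  · rw [dif_neg (fun h => h.2 hd), dif_neg (fun h => h.2 hd')]
    rcases h 0 with h0 | h0
    · exact near_of_rel hφ (show Rel H σ F _ _ from h0)
    · refine (near_of_rel hφ (show Rel H σ F (Sum.inl (Sum.inr (x' 0)))
        (Sum.inl (Sum.inr (x 0))) from ?_)).symm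
      change x 0 = x' 0 + 1
      rw [h0]; ring
  · rw [dif_neg (fun h => h.2 hd), dif_pos ⟨hx', hd'⟩]
    exact near_of_rel hφ (show Rel H σ F _ _ from fun i => by rw [← hd i]; exact h i)
  · rw [dif_pos ⟨hx, hd⟩, dif_neg (fun h => h.2 hd')]
    exact (near_of_rel hφ (show Rel H σ F (Sum.inl (Sum.inr (x' 0)))
      (Sum.inr (q.1, (q.2, ⟨x, hx, hd⟩))) from fun i => by rw [← hd' i]; exact (h i).symm)).symm
  · rw [dif_pos ⟨hx, hd⟩, dif_pos ⟨hx', hd'⟩]
    exact near_of_rel hφ (show Rel H σ F _ _ from Or.inl ⟨rfl, rfl, h⟩)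

theorem red_ax (j : Fin 3) (m : ℤ) :
    (red (ax j m) : Fin 3 → ZMod L) = Sub j (m : ZMod L) (-(m : ZMod L)) := by
  funext l
  unfold red ax Sub
  split_ifs
  · rfl
  · push_cast; rfl

theorem Diag.all {x : Fin 3 → ZMod L} (h : Diag x) (i j : Fin 3) : x i = x j := by
  rw [h i, h j]

/-- a diagonal point of an axis -/
theorem diag_ax {j : Fin 3} {m : ℤ} (h : Diag (red (ax j m) : Fin 3 → ZMod L)) :
    (-(m : ZMod L)) = m ∧ ∀ i, (red (ax j m) : Fin 3 → ZMod L) i = m := by
  obtain ⟨k, hk⟩ : ∃ k : Fin 3, k ≠ j := ⟨j + 1, by fin_cases j <;> decide⟩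
  have h1 := h.all k j
  rw [red_ax] at h1
  simp only [Sub, hk, if_false, if_true] at h1
  refine ⟨h1, fun i => ?_⟩
  rw [red_ax]
  unfold Sub
  split_ifs
  · rfl
  · exact h1

theorem near_cross {φ : W V L N → ZMod n} (hφ : ∀ a b, (gr H σ F).Adj a b → Near (φ a) (φ b))
    {p p' : Fin N × Fin N} {j i : Fin 3} (hF : F p)
    (hp : (i = 0 ∧ p' = (p.1, p.1)) ∨ (i = 1 ∧ p' = (p.2, p.2))) (m : ℤ) :
    Near (φ (emb (p', 0) (red (ax j m)))) (φ (emb (p, j) (red (ax i (m + 1))))) := by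
  have g1 : Good (red (ax j m) : Fin 3 → ZMod L) := ⟨_, even_ax j m, rfl⟩
  have g2 : Good (red (ax i (m + 1)) : Fin 3 → ZMod L) := ⟨_, even_ax i (m + 1), rfl⟩
  unfold emb
  by_cases hd : Diag (red (ax j m) : Fin 3 → ZMod L) <;>
    by_cases hd' : Diag (red (ax i (m + 1)) : Fin 3 → ZMod L)
  · rw [dif_neg (fun h => h.2 hd), dif_neg (fun h => h.2 hd'), (diag_ax hd).2, (diag_ax hd').2]
    refine near_of_rel hφ (show Rel H σ F _ _ from ?_)
    change ((m + 1 : ℤ) : ZMod L) = (m : ZMod L) + 1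
    push_cast; rfl
  · rw [dif_neg (fun h => h.2 hd), dif_pos ⟨g2, hd'⟩, (diag_ax hd).2]
    refine near_of_rel hφ (show Rel H σ F _ _ from ?_)
    intro l
    change Step1 (m : ZMod L) ((red (ax i (m + 1)) : Fin 3 → ZMod L) l)
    rw [red_ax]
    unfold Sub
    split_ifs
    · exact Or.inl (by push_cast; rfl)
    · refine Or.inr ?_
      have := (diag_ax hd).1
      push_cast
      rw [neg_add, this]
      ring
  · rw [dif_pos ⟨g1, hd⟩, dif_neg (fun h => h.2 hd'), (diag_ax hd').2]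
    refine (near_of_rel hφ (show Rel H σ F (Sum.inl (Sum.inr ((m + 1 : ℤ) : ZMod L)))
      (Sum.inr (p', (0, ⟨_, g1, hd⟩))) from ?_)).symm
    intro l
    change Step1 ((m + 1 : ℤ) : ZMod L) ((red (ax j m) : Fin 3 → ZMod L) l)
    rw [red_ax]
    have := (diag_ax hd').1
    push_cast at this
    unfold Sub
    split_ifs
    · exact Or.inr (by push_cast; ring)
    · refine Or.inl ?_
      push_cast
      have h1 : (m : ZMod L) + 1 + 1 = -(m + 1) + 1 := by rw [this]
      rw [h1]; ring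
  · rw [dif_pos ⟨g1, hd⟩, dif_pos ⟨g2, hd'⟩]
    have hcr : CR (L := L) j i (red (ax j m)) (red (ax i (m + 1))) := by
      refine ⟨m, -m, ((m + 1 : ℤ) : ZMod L), -((m + 1 : ℤ) : ZMod L), red_ax j m, red_ax i (m + 1),
        Or.inl (by push_cast; rfl), Or.inr (by push_cast; ring)⟩
    refine (near_of_rel hφ (show Rel H σ F (Sum.inr (p, (j, ⟨_, g2, hd'⟩)))
      (Sum.inr (p', (0, ⟨_, g1, hd⟩))) from ?_)).symm
    rcases hp with ⟨rfl, hp⟩ | ⟨rfl, hp⟩
    · exact Or.inr ⟨hF, rfl, Or.inl ⟨hp, hcr⟩⟩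
    · exact Or.inr ⟨hF, rfl, Or.inr ⟨hp, hcr⟩⟩

/-- on the diagonal all embeddings agree -/
theorem emb_diag (q : (Fin N × Fin N) × Fin 3) (t : ZMod L) :
    (emb q (fun _ => t) : W V L N) = Sum.inl (Sum.inr t) := by
  unfold emb
  rw [dif_neg (fun h => h.2 (fun _ => rfl))]

/-- every gadget vertex is an embedded position -/
theorem exists_emb (q : (Fin N × Fin N) × Fin 3) (x : Pos L) :
    ∃ z : Fin 3 → ℤ, EvenT z ∧ (emb q (red z) : W V L N) = Sum.inr (q.1, (q.2, x)) := by
  obtain ⟨x, ⟨z, hz, rfl⟩, hd⟩ := x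
  refine ⟨z, hz, ?_⟩
  unfold emb
  rw [dif_pos ⟨⟨z, hz, rfl⟩, hd⟩]

end P2baC
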