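import Pool.Agent.Lib.P2baC.Defs

/-!
# P2baC.Spread: maps with small spread are not surjective

PROOF.
`not_surj_of_spread`: if `α` is empty, clear.  Otherwise the set of the values `F w` is bounded below
(by `F w0 - (n - 2)`), take `w1` with the least value `m = F w1`.  All `F w` are in `[m, m + n - 2]`.
The residue of `m + n - 1` is not attained: if `φ w` is this residue, then
`n ∣ m + n - 1 - F w ∈ [1, n - 1]`.
-/

set_option autoImplicit false

namespace P2baC

theorem not_surj_of_spread {α : Type} {n : ℕ} (hn : 1 ≤ n) (φ : α → ZMod n) (F : α → ℤ)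
    (hF : ∀ w, ((F w : ℤ) : ZMod n) = φ w) (hs : ∀ w w', F w - F w' ≤ n - 2) :
    ¬ Function.Surjective φ := by
  intro hsurj
  obtain ⟨w0, -⟩ := hsurj 0
  -- a vertex with the least value
  obtain ⟨w1, hw1⟩ : ∃ w1, ∀ w, F w1 ≤ F w := by
    obtain ⟨lb, ⟨w1, h1⟩, h2⟩ := Int.exists_least_of_bdd (P := fun z => ∃ w, F w = z)
      ⟨F w0 - (n - 2), fun z ⟨w, hw⟩ => by have := hs w0 w; omega⟩ ⟨F w0, w0, rfl⟩
    exact ⟨w1, fun w => by rw [h1]; exact h2 _ ⟨w, rfl⟩⟩
  obtain ⟨w, hw⟩ := hsurj (((F w1 + n - 1 : ℤ)) : ZMod n)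
  rw [← hF w, ZMod.intCast_eq_intCast_iff_dvd_sub] at hw
  have h1 := hw1 w
  have h2 := hs w w1
  obtain ⟨k, hk⟩ := hw
  have hn' : (1 : ℤ) ≤ n := by exact_mod_cast hn
  have h3 : 1 ≤ (n : ℤ) * k := by omega
  have h4 : (n : ℤ) * k ≤ n - 1 := by omega
  have h5 : 0 < k := by
    by_contra hcon
    have : (n : ℤ) * k ≤ 0 := by nlinarith
    omega
  nlinarith

end P2baC
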