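import Pool.Agent.Lib.P2baC.Emb

/-!
# P2baC.VLift: the copy of `V` is near to the common cycle

PROOF.
`vlift`: for a walk of length `m` from `a` to `σ i`: there are `t : ZMod L` and `k : ℤ`,
`|k| ≤ max m 1`, with `φ (inl (inl a)) = φ (inl (inr t)) + k`.  Induction on `m`.  `m = 0`: `a = σ i` and
`H (σ i) (σ (i+1))` gives `Rel (inl (inl (σ i))) (inl (inr (i+1)))`, so `Near`, `t = i + 1`.
`m + 1`: `H a b` and a walk of length `m` from `b` to `σ i`.  If `m = 0` then `b = σ i` and
`Rel (inl (inl a)) (inl (inr i))`.  Otherwise `a = b`, or `a, b` are adjacent in the instance; the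
induction hypothesis for `b` adds at most 1, and `max m 1 + 1 = m + 1`.
-/

set_option autoImplicit false

namespace P2baC

variable {V : Type} {L N n r : ℕ} {H : V → V → Prop} {σ : ZMod L → V} {F : Fin N × Fin N → Prop}
  {p : V → ZMod n}

theorem Near.exists_int {n : ℕ} {a b : ZMod n} (h : Near a b) :
    ∃ k : ℤ, |k| ≤ 1 ∧ a = b + (k : ZMod n) := by
  rcases h with h | h | h
  · exact ⟨0, by simp, by rw [h]; simp⟩
  · exact ⟨-1, by simp, by rw [h]; push_cast; ring⟩
  · exact ⟨1, by simp, by rw [h]; push_cast; ring⟩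

theorem vlift (hσ : ∀ i, H (σ i) (σ (i + 1))) {φ : W V L N → ZMod n}
    (hφ : ∀ a b, (gr H σ F).Adj a b → Near (φ a) (φ b)) (m : ℕ) :
    ∀ (a : V) (i : ZMod L), Pool.Agent.Lib.P2ba8ab.Walk H m a (σ i) →
      ∃ (t : ZMod L) (k : ℤ), |k| ≤ max m 1 ∧
        φ (Sum.inl (Sum.inl a)) = φ (Sum.inl (Sum.inr t)) + (k : ZMod n) := by
  have hrel : ∀ w w' : W V L N, w ≠ w' → Rel H σ F w w' → Near (φ w) (φ w') := fun w w' h1 h2 =>
    hφ _ _ ((SimpleGraph.fromRel_adj _ _ _).2 ⟨h1, Or.inl h2⟩)
  induction m with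
  | zero =>
    intro a i hw
    have hw : a = σ i := hw
    subst hw
    have h : Near (φ (Sum.inl (Sum.inl (σ i)))) (φ (Sum.inl (Sum.inr (i + 1)))) :=
      hrel _ _ (by simp) (hσ i)
    obtain ⟨k, hk1, hk2⟩ := h.exists_int
    exact ⟨i + 1, k, by simpa using hk1, hk2⟩
  | succ m ih =>
    intro a i hw
    obtain ⟨b, hab, hw⟩ := hw
    rcases Nat.eq_zero_or_pos m with hm | hm
    · subst hm
      have hw : b = σ i := hw
      subst hw
      have h : Near (φ (Sum.inl (Sum.inl a))) (φ (Sum.inl (Sum.inr i))) :=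
        hrel _ _ (by simp) hab
      obtain ⟨k, hk1, hk2⟩ := h.exists_int
      exact ⟨i, k, by simpa using hk1, hk2⟩
    · obtain ⟨t, k, hk1, hk2⟩ := ih b i hw
      have h : Near (φ (Sum.inl (Sum.inl a))) (φ (Sum.inl (Sum.inl b))) := by
        by_cases h : a = b
        · rw [h]; exact Or.inl rfl
        · exact hrel _ _ (by simpa using h) hab
      obtain ⟨k', hk1', hk2'⟩ := h.exists_int
      refine ⟨t, k + k', ?_, ?_⟩
      · have h1 : max m 1 = m := max_eq_left hm
        have h2 : max (m + 1) 1 = m + 1 := max_eq_left (by omega)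
        rw [h1] at hk1
        rw [h2]
        refine (abs_add_le _ _).trans ?_
        push_cast
        omega
      · rw [hk2', hk2]
        push_cast
        ring

end P2baC
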