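import Pool.Agent.Lib.P2baC.Circ
import Pool.Agent.Lib.P2baC.Spread
import Pool.Agent.Lib.P2baC.VLift

/-!
# P2baC.NoSurj: without winding the map is not surjective

PROOF.
`nosurj`: let `Θ t := Ψ q0 (fun _ => t)`; by `diag_agree` and `emb_diag` it is `Ψ q (fun _ => t)` for
all `q`.  `L = 2 M`.  Choose `F w : ℤ` with `(F w : ZMod n) = φ w` and:
(i) for `w = inl (inl a)`: `|F w - Θ t| ≤ r` for some `t : ℤ` (`vlift`, `D.dist`, `D.one`: lift the
residue `t` to an integer, `F w := Θ t + k`; `(Θ t : ZMod n) = φ (emb q0 (red (fun _ => t))) =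
φ (inl (inr t))`);
(ii) otherwise `F w = Ψ q z` for some `q` and an even triple `z` (for `w = inl (inr t)`: `q0` and
`z = (t,t,t)`; for `w = inr (p, (j, x))`: `exists_emb`).
All differences are at most `n - 2`:
(ii)-(ii): `circ` gives `t, v, v', D, D'`; `Ψ q z = Ψ q (z + L v)`, `|Ψ q (z + L v) - Θ t| ≤ D` by
`Lift.lip` (`z + L v` and `(t,t,t)` are even triples), the same for the other one.
(i)-(ii): `center` for `z` and `t`: `|Ψ q z - Θ t| ≤ M`, and `r + M ≤ n - 2`.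
(i)-(i): `center` for `(t', t', t')` (constant `v`: use the entry 0 of `v`) and `t`:
`|Θ t' - Θ t| ≤ M`, `2 r + M ≤ n - 2` by `D.num1`.  Conclude by `not_surj_of_spread`.
-/

set_option autoImplicit false

namespace P2baC

variable {V : Type} {L N n r : ℕ} {H : V → V → Prop} {σ : ZMod L → V} {F : Fin N × Fin N → Prop}
  {p : V → ZMod n}

theorem even_shift {z v : Fin 3 → ℤ} (hz : EvenT z) (hL : Even L) :
    EvenT (fun i => z i + L * v i) := by
  intro i j
  obtain ⟨M, hM⟩ := hL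
  obtain ⟨k, hk⟩ := hz i j
  have hM' : (L : ℤ) = M + M := by exact_mod_cast hM
  refine ⟨k + M * v i - M * v j, ?_⟩
  simp only [hM']
  linear_combination hk

theorem nosurj (D : Data H n L r p σ) {φ : W V L N → ZMod n}
    (hφ : ∀ a b, (gr H σ F).Adj a b → Near (φ a) (φ b)) (q0 : (Fin N × Fin N) × Fin 3) {k0 : ℤ}
    (Ψ : (Fin N × Fin N) × Fin 3 → (Fin 3 → ℤ) → ℤ)
    (hΨ : ∀ q, Lift (fun x => φ (emb q x)) k0 (Ψ q))
    (hp : ∀ q (z v : Fin 3 → ℤ), EvenT z → Ψ q (fun i => z i + L * v i) = Ψ q z) :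
    ¬ Function.Surjective φ := by
  classical
  have hn1 := D.num1
  have hn2 := D.num2
  have hr1 := D.one
  have hpos := D.pos
  obtain ⟨M, hM⟩ := D.even
  have hM2 : L = 2 * M := by omega
  have hM0 : 0 < M := by omega
  have hn3 : 3 ≤ n := by omega
  set Θ : ℤ → ℤ := fun t => Ψ q0 (fun _ => t) with hΘ
  have hagree : ∀ q t, Ψ q (fun _ => t) = Θ t := fun q t =>
    diag_agree hn3 (hΨ q) (hΨ q0) (fun s => by rw [emb_diag, emb_diag]) t
  have hcast : ∀ t : ℤ, ((Θ t : ℤ) : ZMod n) = φ (Sum.inl (Sum.inr (t : ZMod L))) := by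
    intro t
    have h := (hΨ q0).cast _ (evenT_const t)
    rw [red_const, emb_diag] at h
    exact h
  -- near the common cycle
  have hnear : ∀ q (z : Fin 3 → ℤ), EvenT z → ∀ (t : ℤ) (v : Fin 3 → ℤ) (D : ℕ),
      (∀ i, |z i + L * v i - t| ≤ D) → |Ψ q z - Θ t| ≤ D := by
    intro q z hz t v D' hD
    have h := (hΨ q).lip D' (fun _ => t) (fun i => z i + L * v i) (evenT_const t)
      (even_shift hz D.even) hD
    rw [hp q z v hz, hagree] at h
    exact h
  -- the two kinds of values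
  have hval : ∀ w : W V L N, ∃ y : ℤ, ((y : ℤ) : ZMod n) = φ w ∧
      ((∃ t : ℤ, |y - Θ t| ≤ r) ∨ ∃ q z, EvenT z ∧ y = Ψ q z) := by
    rintro ((a | t) | ⟨p', j, x⟩)
    · obtain ⟨m, hm, i, hw⟩ := D.dist a
      obtain ⟨t, k, hk1, hk2⟩ := vlift D.walk hφ m a i hw
      obtain ⟨t', rfl⟩ := ZMod.intCast_surjective t
      refine ⟨Θ t' + k, ?_, Or.inl ⟨t', ?_⟩⟩
      · push_cast
        rw [hcast, hk2]
      · have : Θ t' + k - Θ t' = k := by ring
        rw [this]
        refine hk1.trans ?_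
        have : max m 1 ≤ r := max_le hm hr1
        exact_mod_cast this
    · obtain ⟨t', rfl⟩ := ZMod.intCast_surjective t
      exact ⟨Θ t', hcast t', Or.inr ⟨q0, fun _ => t', evenT_const t', rfl⟩⟩
    · obtain ⟨z, hz, he⟩ := exists_emb (V := V) (p', j) x
      refine ⟨Ψ (p', j) z, ?_, Or.inr ⟨(p', j), z, hz, rfl⟩⟩
      rw [(hΨ (p', j)).cast z hz, he]
  choose Fv hF1 hF2 using hval
  refine not_surj_of_spread (by omega) φ Fv hF1 ?_
  -- the distances
  have hΘΘ : ∀ t t' : ℤ, |Θ t' - Θ t| ≤ M := by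
    intro t t'
    obtain ⟨v, hv⟩ := center hM2 hM0 (fun _ => t') t
    have h := hnear q0 (fun _ => t') (evenT_const t') t (fun _ => v 0) M (fun _ => hv 0)
    exact h
  have hΨΘ : ∀ q (z : Fin 3 → ℤ), EvenT z → ∀ t : ℤ, |Ψ q z - Θ t| ≤ M := by
    intro q z hz t
    obtain ⟨v, hv⟩ := center hM2 hM0 z t
    exact hnear q z hz t v M hv
  have hnum : 2 * (r : ℤ) + M + 2 ≤ n := by omega
  intro w w'
  rcases hF2 w with ⟨t, ht⟩ | ⟨q, z, hz, hy⟩ <;> rcases hF2 w' with ⟨t', ht'⟩ | ⟨q', z', hz', hy'⟩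
  · have h := hΘΘ t' t
    rw [abs_le] at *
    omega
  · have h := hΨΘ q' z' hz' t
    rw [hy']
    rw [abs_le] at *
    omega
  · have h := hΨΘ q z hz t'
    rw [hy]
    rw [abs_le] at *
    omega
  · obtain ⟨t, v, v', D1, D2, h1, h2, h3⟩ := circ D.even D.pos D.num2 z z' hz hz'
    have h4 := hnear q z hz t v D1 h1
    have h5 := hnear q' z' hz' t v' D2 h2
    rw [hy, hy']
    rw [abs_le] at *
    omega

end P2baC
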