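import Pool.Agent.Lib.P2baC.Lift3
import Pool.Agent.Lib.P2baC.NoSurj

/-!
# P2baC.Sound: a surjective homomorphism gives a 3-colouring

PROOF.  If `N = 0` there is nothing to colour.  Otherwise fix `q0 := ((0,0),0)`.  Let
`φ w := p (f w)`; by `D.near` and `hf` it satisfies `hφ`, and it is surjective.  `n ≥ 5` by `D.num1`,
`D.one` and `L ≥ 2` (even and positive); `L < 2 n` by `D.num1`.
Choose `k0 : ℤ` with `(k0 : ZMod n) = φ (inl (inr 0))` (`ZMod.intCast_surjective`).  For every `q` let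
`G q x := φ (emb q x)`; `G q (red 0) = φ (inl (inr 0))` (`emb_diag`), so `exists_lift` (with
`near_emb`) gives `Ψ q`, and `Lift.period` gives `w q`; choose them for all `q`.
`τ := ∑ i, w q i` is the same for all `q`: `n * ∑ w q i = Ψ q (L,L,L) - Ψ q 0` (period with `z = 0`,
`v = 1`) and `diag_agree`, `emb_diag`.
`w_cases` (with `Lift.winding`): `|τ| ≤ 1`.
`τ = 0`: all `w q i = 0`, `nosurj` contradicts surjectivity.
`τ = ±1`: then `n ≤ L` (`n * |τ| = |Ψ q (L,L,L) - Ψ q 0| ≤ L` by `Lift.lip`), so `5 n + 8 ≤ 6 n`, `n ≥ 8`.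
Every `w q` is `τ` at one place and `0` elsewhere.  Let `c u` be the place for `q = ((u,u),0)`.
If `F (u,v)` and `c u = c v = j`: by `glue` with `near_cross` (`i = 0` and `i = 1`)
`w ((u,u),0) j = w ((u,v),j) 0` and `w ((v,v),0) j = w ((u,v),j) 1`; both are `τ ≠ 0`, but
`w ((u,v),j)` is nonzero at one place only.
-/

set_option autoImplicit false

namespace P2baC

variable {V : Type} {L N n r : ℕ} {H : V → V → Prop} {σ : ZMod L → V} {F : Fin N × Fin N → Prop}
  {p : V → ZMod n}

theorem sound (D : Data H n L r p σ) (f : W V L N → V)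
    (hf : ∀ a b, (gr H σ F).Adj a b → H (f a) (f b)) (hs : Function.Surjective f) :
    ∃ c : Fin N → Fin 3, ∀ u v, F (u, v) → c u ≠ c v := by
  rcases Nat.eq_zero_or_pos N with hN | hN
  · subst hN
    exact ⟨fun u => u.elim0, fun u => u.elim0⟩
  have hL2 : 2 ≤ L := by
    obtain ⟨m, hm⟩ := D.even
    have := D.pos
    omega
  have hn5 : 5 ≤ n := by
    have h1 := D.num1
    have h2 := D.one
    omega
  have hLn : L < 2 * n := by
    have h1 := D.num1
    omega
  set φ : W V L N → ZMod n := fun x => p (f x) with hφdef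
  have hφ : ∀ a b, (gr H σ F).Adj a b → Near (φ a) (φ b) := fun a b h => D.near _ _ (hf a b h)
  have hφs : Function.Surjective φ := D.surj.comp hs
  let q0 : (Fin N × Fin N) × Fin 3 := ((⟨0, hN⟩, ⟨0, hN⟩), 0)
  obtain ⟨k0, hk0⟩ := ZMod.intCast_surjective (φ (Sum.inl (Sum.inr 0)))
  have hex : ∀ q : (Fin N × Fin N) × Fin 3, ∃ Ψ, Lift (fun x => φ (emb q x)) k0 Ψ := by
    intro q
    apply exists_lift hn5 (fun x => φ (emb q x))
      (fun x x' hx hx' h => near_emb hφ q x x' hx hx' h) k0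
    have h1 : (red 0 : Fin 3 → ZMod L) = fun _ => (0 : ZMod L) := by
      funext i
      simp [red]
    rw [hk0, h1, emb_diag]
  choose Ψ hΨ using hex
  have hper := fun q => (hΨ q).period (by omega) D.even
  choose w hw using hper
  have hn0 : (n : ℤ) ≠ 0 := by
    have : n ≠ 0 := by omega
    exact_mod_cast this
  have hE0 : EvenT 0 := fun _ _ => by simp
  have hsumw : ∀ q, (n : ℤ) * ∑ i, w q i = Ψ q (fun _ => (L : ℤ)) - Ψ q 0 := by
    intro q
    have h := hw q 0 (fun _ => 1) hE0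
    have h1 : (fun i : Fin 3 => (0 : Fin 3 → ℤ) i + (L : ℤ) * (fun _ => (1 : ℤ)) i) =
        fun _ => (L : ℤ) := by
      funext i
      simp
    rw [h1] at h
    simp only [mul_one] at h
    rw [h]
    ring
  have hsum : ∀ q q', ∑ i, w q i = ∑ i, w q' i := by
    intro q q'
    apply mul_left_cancel₀ hn0
    rw [hsumw, hsumw]
    have hag := diag_agree (by omega) (hΨ q) (hΨ q') (fun t => by
      simp only [emb_diag])
    have h1 := hag L
    have h2 := hag 0
    have h3 : (0 : Fin 3 → ℤ) = fun _ => (0 : ℤ) := rfl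
    rw [h3, h1, h2]
  have hwc := fun q => w_cases ((hΨ q).winding hLn D.even (hw q))
  have habs := (hwc q0).1
  by_cases hτ : ∑ i, w q0 i = 0
  · exfalso
    refine nosurj D hφ q0 Ψ hΨ ?_ hφs
    intro q z v hz
    have hq : ∀ i, w q i = 0 := (hwc q).2.1 ((hsum q q0).trans hτ)
    rw [hw q z v hz]
    simp [hq]
  have hτ1 : |∑ i, w q0 i| = 1 := by
    have h1 : 0 < |∑ i, w q0 i| := abs_pos.2 hτ
    omega
  have hplace : ∀ q, ∃ j, ∀ i, w q i = if i = j then ∑ i, w q0 i else 0 := by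
    intro q
    rcases (abs_eq (by norm_num : (0 : ℤ) ≤ 1)).1 hτ1 with h | h
    · rw [h]
      exact (hwc q).2.2.1 ((hsum q q0).trans h)
    · rw [h]
      exact (hwc q).2.2.2 ((hsum q q0).trans h)
  have hnL : n ≤ L := by
    have h1 := (hΨ q0).lip L 0 (fun _ => (L : ℤ)) hE0 (evenT_const _) (by
      intro i
      simp)
    rw [← hsumw q0, abs_mul, hτ1, mul_one, abs_of_nonneg (by positivity)] at h1
    exact_mod_cast h1
  have hn7 : 7 ≤ n := by
    have := D.num2
    omega
  choose cc hcc using hplace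
  refine ⟨fun u => cc ((u, u), 0), fun u v hF huv => ?_⟩
  set j := cc ((u, u), 0) with hj
  have g1 := glue hn7 (hΨ ((u, u), 0)) (hΨ ((u, v), j)) (hw _) (hw _) j 0
    (fun m => near_cross hφ hF (Or.inl ⟨rfl, rfl⟩) m) (hsum _ _)
  have g2 := glue hn7 (hΨ ((v, v), 0)) (hΨ ((u, v), j)) (hw _) (hw _) j 1
    (fun m => near_cross hφ hF (Or.inr ⟨rfl, rfl⟩) m) (hsum _ _)
  rw [hcc ((u, u), 0) j, hcc ((u, v), j) 0, if_pos hj] at g1
  rw [hcc ((v, v), 0) j, hcc ((u, v), j) 1, if_pos huv] at g2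
  have e1 : (0 : Fin 3) = cc ((u, v), j) := by
    by_contra hne
    rw [if_neg hne] at g1
    exact hτ g1
  have e2 : (1 : Fin 3) = cc ((u, v), j) := by
    by_contra hne
    rw [if_neg hne] at g2
    exact hτ g2
  have e3 := e1.trans e2.symm
  exact absurd e3 (by decide)

end P2baC
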