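import Pool.Agent.Lib.P2baC.Table
import Pool.Agent.Lib.P2baC.Sound
import Pool.Agent.Lib.P2baC.Compl

/-!
# P2baC.Final: the reduction
-/

set_option autoImplicit false

namespace P2baC

open Pool.Agent.Lib.P2ba8ab Pool.Agent.Lib.PolyTime Pool.Agent.Lib.Pa7c826

theorem equiv_three {V : Type} {H : V → V → Prop} {n L r : ℕ} {p : V → ZMod n}
    {σ : ZMod L → V} (D : Data H n L r p σ) (g : Gr) :
    g.G.Colorable 3 ↔ SurjHom (gr H σ (fun p : Fin g.n × Fin g.n => adjN g p.1 p.2 = true)) H := by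
  constructor
  · rintro ⟨c⟩
    exact compl D.symm D.walk c (fun u v h => c.valid ((adjN_fin g u v).1 h))
  · rintro ⟨f, h1, h2⟩
    obtain ⟨c, hc⟩ := sound D f h1 h2
    exact ⟨SimpleGraph.Coloring.mk c (fun {u v} h => hc u v ((adjN_fin g u v).2 h))⟩

theorem main {V : Type} [Finite V] {H : V → V → Prop} {n L r : ℕ} {p : V → ZMod n}
    {σ : ZMod L → V} (D : Data H n L r p σ) :
    ∃ f : Gr → Gr, Nonempty (Turing.TM2ComputableInPolyTime Gr.encode Gr.encode f) ∧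
      ∀ g, g.G.Colorable 3 ↔ SurjHom (f g).G H := by
  classical
  have hL : NeZero L := ⟨D.pos.ne'⟩
  have h0 : Finite (V ⊕ ZMod L) := inferInstance
  have h1 : Finite (Pos L) := by unfold Pos; infer_instance
  have h2 : Finite (Fin 3 × Pos L) := inferInstance
  obtain ⟨c0, ⟨e0⟩⟩ := Finite.exists_equiv_fin (V ⊕ ZMod L)
  obtain ⟨R, ⟨e1⟩⟩ := Finite.exists_equiv_fin (Fin 3 × Pos L)
  refine ⟨redC H σ e0.symm e1.symm, ?_, fun g => ?_⟩
  · obtain ⟨⟨tm, time, hout⟩⟩ := PolyC.toTM2 Gr.encode (D := fun _ => True)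
      (redC H σ e0.symm e1.symm) Gr.encode (poly_redC H σ e0.symm e1.symm)
    exact ⟨⟨tm, time, fun g => hout ⟨g, trivial⟩⟩⟩
  · rw [surj_redC]
    exact equiv_three D g

end P2baC
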