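import Pool.Agent.Lib.P2baC.Torus

/-!
# P2baC.Glue: comparison of two lifts

PROOFS.
`diag_agree`: `E t := ΨA (t,t,t) - ΨB (t,t,t)` is `0` at `t = 0`, divisible by `n` (cast, `hd`), and
changes by at most `2 < n` in every step, so it is `0` for all `t` (induction on `ℤ` in both
directions, `Int.induction_on`).
`ax j m` is the triple with `m` at `j` and `-m` elsewhere.  `glue`: put
`E m := ΨA (ax j m) - ΨB (ax i m)`; `E 0 = 0`; `|E (m+1) - E m| ≤ 2`; and `E m` is congruent mod `n` to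
an integer in `[-2, 2]`: `(ΨA (ax j m) : ZMod n) = GA (red (ax j m))` is `Near` to
`GB (red (ax i (m+1)))`, the cast of `ΨB (ax i (m+1))`, which differs from `ΨB (ax i m)` by at
most 1.  Hence `|E m| ≤ 2` for all `m ≥ 0` by induction: `|E (m+1)| ≤ 4`, and a number in `[-4,4]`
congruent mod `n ≥ 7` to a number in `[-2,2]` is in `[-2,2]`.  At `m = L`:
`ax j L = 0 + L * ax j 1`, so `E L = n * (∑ l, wA l * ax j 1 l - ∑ l, wB l * ax i 1 l)
= n * (2 * wA j - ∑ wA - 2 * wB i + ∑ wB) = 2 n (wA j - wB i)`, and `|E L| ≤ 2 < 2 n`.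
-/

set_option autoImplicit false

namespace P2baC

theorem evenT_const (t : ℤ) : EvenT (fun _ => t) := fun _ _ => by simp

theorem red_const {L : ℕ} (t : ℤ) : (red (fun _ => t) : Fin 3 → ZMod L) = fun _ => (t : ZMod L) :=
  rfl

theorem diag_agree {n L : ℕ} (hn : 3 ≤ n) {GA GB : (Fin 3 → ZMod L) → ZMod n} {k0 : ℤ}
    {ΨA ΨB : (Fin 3 → ℤ) → ℤ} (hA : Lift GA k0 ΨA) (hB : Lift GB k0 ΨB)
    (hd : ∀ t : ZMod L, GA (fun _ => t) = GB (fun _ => t)) (t : ℤ) :
    ΨA (fun _ => t) = ΨB (fun _ => t) := by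
  have hdvd : ∀ t : ℤ, (n : ℤ) ∣ ΨA (fun _ => t) - ΨB (fun _ => t) := by
    intro t
    have h1 := hA.cast _ (evenT_const t)
    have h2 := hB.cast _ (evenT_const t)
    rw [red_const] at h1 h2
    rw [hd, ← h2] at h1
    exact (ZMod.intCast_eq_intCast_iff_dvd_sub _ _ _).1 h1.symm
  have hstep : ∀ t : ℤ, |(ΨA (fun _ => t + 1) - ΨB (fun _ => t + 1)) -
      (ΨA (fun _ => t) - ΨB (fun _ => t))| ≤ 2 := by
    intro t
    have h1 := hA.step _ _ (evenT_const t) (evenT_const (t + 1)) (fun _ => by simp)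
    have h2 := hB.step _ _ (evenT_const t) (evenT_const (t + 1)) (fun _ => by simp)
    rw [abs_le] at *
    constructor <;> omega
  have key : ∀ {a b : ℤ}, (n : ℤ) ∣ a → |a - b| ≤ 2 → b = 0 → a = 0 := by
    intro a b h1 h2 h3
    subst h3
    rw [sub_zero] at h2
    refine Int.eq_zero_of_abs_lt_dvd h1 ?_
    have : (3 : ℤ) ≤ n := by exact_mod_cast hn
    omega
  have hall : ∀ t : ℤ, ΨA (fun _ => t) - ΨB (fun _ => t) = 0 := by
    intro t
    induction t using Int.induction_on with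
    | zero =>
      have h1 : ΨA (fun _ => 0) = k0 := hA.zero
      have h2 : ΨB (fun _ => 0) = k0 := hB.zero
      rw [h1, h2, sub_self]
    | succ t ih => exact key (hdvd _) (hstep _) ih
    | pred t ih =>
      refine key (hdvd _) ?_ ih
      have h := hstep (-(t : ℤ) - 1)
      rw [sub_add_cancel] at h
      rw [abs_sub_comm]
      exact h
  have := hall t
  omega

/-- the `j`-th axis -/
def ax (j : Fin 3) (m : ℤ) : Fin 3 → ℤ := fun l => if l = j then m else -m

theorem even_ax (j : Fin 3) (m : ℤ) : EvenT (ax j m) := by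
  intro a b
  unfold ax
  split_ifs
  · simp
  · exact ⟨m, by ring⟩
  · exact ⟨-m, by ring⟩
  · simp

theorem glue {n L : ℕ} (hn : 7 ≤ n)
    {GA GB : (Fin 3 → ZMod L) → ZMod n} {k0 : ℤ} {ΨA ΨB : (Fin 3 → ℤ) → ℤ}
    (hA : Lift GA k0 ΨA) (hB : Lift GB k0 ΨB) {wA wB : Fin 3 → ℤ}
    (pA : ∀ z v : Fin 3 → ℤ, EvenT z → ΨA (fun i => z i + L * v i) = ΨA z + n * ∑ i, wA i * v i)
    (pB : ∀ z v : Fin 3 → ℤ, EvenT z → ΨB (fun i => z i + L * v i) = ΨB z + n * ∑ i, wB i * v i)
    (j i : Fin 3) (hc : ∀ m : ℤ, Near (GA (red (ax j m))) (GB (red (ax i (m + 1)))))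
    (hsum : ∑ l, wA l = ∑ l, wB l) : wA j = wB i := by
  have hn' : (7 : ℤ) ≤ n := by exact_mod_cast hn
  have habs : ∀ (j : Fin 3) (m : ℤ), ∀ l, |ax j (m + 1) l - ax j m l| = 1 := by
    intro j m l
    unfold ax
    split_ifs
    · simp
    · have : -(m + 1) - -m = -1 := by ring
      rw [this]; simp
  -- the residues
  have hres : ∀ m : ℤ, ∃ e : ℤ, |e| ≤ 2 ∧ (n : ℤ) ∣ (ΨA (ax j m) - ΨB (ax i m)) - e := by
    intro m
    have h1 := hA.cast _ (even_ax j m)
    have h2 := hB.cast _ (even_ax i (m + 1))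
    have h3 := hB.step _ _ (even_ax i m) (even_ax i (m + 1)) (habs i m)
    have h4 := hc m
    obtain ⟨d, hd1, hd2⟩ : ∃ d : ℤ, |d| ≤ 1 ∧
        (GA (red (ax j m)) : ZMod n) = GB (red (ax i (m + 1))) + (d : ZMod n) := by
      rcases h4 with h | h | h
      · exact ⟨0, by simp, by rw [h]; simp⟩
      · exact ⟨-1, by simp, by rw [h]; push_cast; ring⟩
      · exact ⟨1, by simp, by rw [h]; push_cast; ring⟩
    refine ⟨d + (ΨB (ax i (m + 1)) - ΨB (ax i m)), ?_, ?_⟩
    · rw [abs_le] at *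
      constructor <;> omega
    · rw [← h1, ← h2] at hd2
      have h5 : ((ΨB (ax i (m + 1)) + d : ℤ) : ZMod n) = ((ΨA (ax j m) : ℤ) : ZMod n) := by
        rw [hd2]; push_cast; ring
      have h6 := (ZMod.intCast_eq_intCast_iff_dvd_sub _ _ _).1 h5
      have h7 : ΨA (ax j m) - ΨB (ax i m) - (d + (ΨB (ax i (m + 1)) - ΨB (ax i m))) =
        ΨA (ax j m) - (ΨB (ax i (m + 1)) + d) := by ring
      rw [h7]
      exact h6
  have hstep : ∀ m : ℤ, |(ΨA (ax j (m + 1)) - ΨB (ax i (m + 1))) -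
      (ΨA (ax j m) - ΨB (ax i m))| ≤ 2 := by
    intro m
    have h1 := hA.step _ _ (even_ax j m) (even_ax j (m + 1)) (habs j m)
    have h2 := hB.step _ _ (even_ax i m) (even_ax i (m + 1)) (habs i m)
    rw [abs_le] at *
    constructor <;> omega
  have hax0 : ∀ j : Fin 3, ax j 0 = 0 := by
    intro j
    funext l
    unfold ax
    split_ifs <;> simp
  have hall : ∀ m : ℕ, |ΨA (ax j m) - ΨB (ax i m)| ≤ 2 := by
    intro m
    induction m with
    | zero =>
      simp only [Nat.cast_zero, hax0]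
      rw [hA.zero, hB.zero, sub_self]
      simp
    | succ m ih =>
      have h1 := hstep m
      obtain ⟨e, he, hdvd⟩ := hres (m + 1)
      push_cast
      obtain ⟨k, hk⟩ := hdvd
      rw [abs_le] at *
      have hk0 : k = 0 := by
        by_contra hne
        rcases lt_or_gt_of_ne hne with h | h
        · have : (n : ℤ) * k ≤ -7 := by nlinarith
          omega
        · have : 7 ≤ (n : ℤ) * k := by nlinarith
          omega
      subst hk0
      constructor <;> omega
  have hL := hall L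
  have hz : EvenT 0 := fun _ _ => by simp
  have haxL : ∀ j : Fin 3, (fun l => (0 : Fin 3 → ℤ) l + L * ax j 1 l) = ax j (L : ℤ) := by
    intro j
    funext l
    unfold ax
    split_ifs <;> simp
  have h1 := pA 0 (ax j 1) hz
  have h2 := pB 0 (ax i 1) hz
  rw [haxL, hA.zero] at h1
  rw [haxL, hB.zero] at h2
  have hs : ∀ (w : Fin 3 → ℤ) (j : Fin 3), ∑ l, w l * ax j 1 l = 2 * w j - ∑ l, w l := by
    intro w j
    rw [Fin.sum_univ_three, Fin.sum_univ_three]
    fin_cases j <;> simp [ax] <;> ring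
  rw [hs] at h1 h2
  rw [h1, h2, ← hsum] at hL
  have h3 : k0 + ↑n * (2 * wA j - ∑ l, wA l) - (k0 + ↑n * (2 * wB i - ∑ l, wA l)) =
      2 * (n : ℤ) * (wA j - wB i) := by ring
  rw [h3] at hL
  by_contra hne
  have hne' : wA j - wB i ≠ 0 := fun h => hne (by omega)
  have h4 : 1 ≤ |wA j - wB i| := Int.one_le_abs hne'
  rw [abs_mul, abs_of_nonneg (by positivity)] at hL
  nlinarith

end P2baC
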