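import Pool.Agent.Lib.P2baC.Defs

/-!
# P2baC.Lift3: lifting a map of the lattice to the integers

PROOF.  Coordinates: an even triple `z` is `a s1 + b s2 + c s3` with `s1 = (1,1,1)`, `s2 = (1,1,-1)`,
`s3 = (1,-1,1)`, i.e. `z = T (a,b,c) := (a+b+c, a+b-c, a-b+c)` and `a = (z 1 + z 2)/2`,
`b = (z 0 - z 2)/2`, `c = (z 0 - z 1)/2` (exact divisions for even triples).  `T (a,b,c)` is always
an even triple.
(1) One-dimensional lifts: if `g : ℤ → ZMod n`, `Near (g i) (g (i+1))` for all `i` and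
`(k : ZMod n) = g 0`, there is `ψ : ℤ → ℤ` with `ψ 0 = k`, `(ψ i : ZMod n) = g i`,
`|ψ (i+1) - ψ i| ≤ 1`: choose `d i ∈ {-1,0,1}` with `g (i+1) = g i + d i` and sum up
(e.g. `ψ i = k + ∑ j ∈ Ico 0 i, d j - ∑ j ∈ Ico i 0, d j`, or two recursions on `ℕ`).
(2) Let `g a b c := G (red (T (a,b,c)))`.  Lift `a ↦ g a 0 0` from `k0` to `A a`; for every `a` lift
`b ↦ g a b 0` from `A a` to `B a b`; for all `a, b` lift `c ↦ g a b c` from `B a b` to `Φ a b c`.
So `Φ 0 0 0 = k0`, `Φ a b c` casts to `g a b c`, `|Φ a b (c+1) - Φ a b c| ≤ 1`,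
`|Φ a (b+1) 0 - Φ a b 0| ≤ 1`, `|Φ (a+1) 0 0 - Φ a 0 0| ≤ 1`.
(3) Propagation lemma: if `f, f' : ℤ → ℤ` change by at most one in every step, `f' i - f i` is
congruent to `-1, 0` or `1` mod `n` for all `i`, and `|f' 0 - f 0| ≤ 1`, then `|f' i - f i| ≤ 1` for
all `i` (induction in both directions: the difference changes by at most 2, so it is at most 3 in
absolute value, and a number in `[-3,3]` congruent to one of `-1,0,1` mod `n ≥ 5` is in `[-1,1]`).
Apply it to `Φ a b ·`, `Φ a (b+1) ·` (all `a, b`), then to `Φ a · 0`, `Φ (a+1) · 0`, and then to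
`Φ a b ·`, `Φ (a+1) b ·`: `Φ` changes by at most 1 in each of the three coordinate directions.
The congruences: neighbouring points of the lattice `(a,b,c)` go to triples differing by
`±s1, ±s2, ±s3`, so `hG` gives `Near`.
(4) `Ψ z := Φ ((z 1 + z 2)/2) ((z 0 - z 2)/2) ((z 0 - z 1)/2)`.  If `z, z'` are even and
`|z' i - z i| = 1` for all `i`, the coordinates `(a,b,c)` change by `±(1,0,0)`, `±(0,1,0)`,
`±(0,0,1)` or `±(1,-1,-1)` (8 cases for the signs; note `(-1,1,1) = s1 - s2 - s3`).  In the first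
three cases the change of `Ψ` is at most 1.  In the last it is at most 3, and congruent to `-1, 0`
or `1` mod `n` (by `cast` and `hG`), so at most 1.
-/

set_option autoImplicit false

namespace P2baC

namespace Lift3Aux

/-- sums of the increments -/
private def psi (k : ℤ) (d : ℤ → ℤ) : ℤ → ℤ
  | Int.ofNat m => k + ∑ j ∈ Finset.range m, d j
  | Int.negSucc m => k - ∑ j ∈ Finset.range (m + 1), d (-((j : ℤ) + 1))

private theorem psi_zero (k : ℤ) (d : ℤ → ℤ) : psi k d 0 = k := by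
  show k + ∑ j ∈ Finset.range 0, d j = k
  simp

private theorem psi_succ (k : ℤ) (d : ℤ → ℤ) (i : ℤ) : psi k d (i + 1) = psi k d i + d i := by
  rcases i with m | m
  · show k + ∑ j ∈ Finset.range (m + 1), d j = k + ∑ j ∈ Finset.range m, d j + d (m : ℤ)
    rw [Finset.sum_range_succ, add_assoc]
  · rcases m with _ | m
    · show psi k d 0 = k - ∑ j ∈ Finset.range (0 + 1), d (-((j : ℤ) + 1)) + d (-1)
      rw [psi_zero]
      simp
    · have h1 : (Int.negSucc (m + 1) : ℤ) + 1 = Int.negSucc m := by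
        rw [Int.negSucc_eq, Int.negSucc_eq]
        push_cast
        ring
      rw [h1]
      show k - ∑ j ∈ Finset.range (m + 1), d (-((j : ℤ) + 1)) =
        k - ∑ j ∈ Finset.range (m + 1 + 1), d (-((j : ℤ) + 1)) + d (Int.negSucc (m + 1))
      rw [Finset.sum_range_succ _ (m + 1), Int.negSucc_eq]
      push_cast
      ring

private theorem lift1 {n : ℕ} (g : ℤ → ZMod n) (hg : ∀ i, Near (g i) (g (i + 1))) (k : ℤ)
    (hk : ((k : ℤ) : ZMod n) = g 0) : ∃ ψ : ℤ → ℤ, ψ 0 = k ∧
      (∀ i, ((ψ i : ℤ) : ZMod n) = g i) ∧ ∀ i, |ψ (i + 1) - ψ i| ≤ 1 := by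
  have h1 : ∀ i, ∃ d : ℤ, |d| ≤ 1 ∧ g (i + 1) = g i + ((d : ℤ) : ZMod n) := by
    intro i
    rcases hg i with h | h | h
    · exact ⟨0, by norm_num, by rw [h]; simp⟩
    · exact ⟨1, by norm_num, by rw [h]; simp⟩
    · exact ⟨-1, by norm_num, by rw [h]; simp [sub_eq_add_neg]⟩
  choose d hd1 hd2 using h1
  refine ⟨psi k d, psi_zero k d, ?_, fun i => by rw [psi_succ, add_sub_cancel_left]; exact hd1 i⟩
  intro i
  induction i using Int.induction_on with
  | zero => rw [psi_zero, hk]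
  | succ i ih => rw [psi_succ, Int.cast_add, ih, ← hd2]
  | pred i ih =>
    have h2 := psi_succ k d (-(i : ℤ) - 1)
    have h3 := hd2 (-(i : ℤ) - 1)
    rw [sub_add_cancel] at h2 h3
    rw [h2, Int.cast_add, h3] at ih
    exact add_right_cancel ih

private theorem near_small {n : ℕ} (hn : 5 ≤ n) {x y : ℤ}
    (h : Near ((x : ℤ) : ZMod n) ((y : ℤ) : ZMod n)) (h3 : |y - x| ≤ 3) : |y - x| ≤ 1 := by
  have hn' : (5 : ℤ) ≤ n := by exact_mod_cast hn
  have key : ∀ e : ℤ, |e| ≤ 1 → ((y - x - e : ℤ) : ZMod n) = 0 → |y - x| ≤ 1 := by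
    intro e he h0
    rw [ZMod.intCast_zmod_eq_zero_iff_dvd] at h0
    have h4 : |y - x - e| < n := by
      have h5 := abs_sub (y - x) e
      linarith
    have h6 := Int.eq_zero_of_abs_lt_dvd h0 h4
    have h7 : y - x = e := by linarith
    rw [h7]
    exact he
  rcases h with h | h | h
  · refine key 0 (by norm_num) ?_
    push_cast
    rw [h]
    ring
  · refine key 1 (by norm_num) ?_
    push_cast
    rw [h]
    ring
  · refine key (-1) (by norm_num) ?_
    push_cast
    rw [h]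
    ring

private theorem prop {n : ℕ} (hn : 5 ≤ n) {f f' : ℤ → ℤ} (hf : ∀ i, |f (i + 1) - f i| ≤ 1)
    (hf' : ∀ i, |f' (i + 1) - f' i| ≤ 1)
    (hc : ∀ i, Near ((f i : ℤ) : ZMod n) ((f' i : ℤ) : ZMod n)) (h0 : |f' 0 - f 0| ≤ 1) (i : ℤ) :
    |f' i - f i| ≤ 1 := by
  induction i using Int.induction_on with
  | zero => exact h0
  | succ i ih =>
    apply near_small hn (hc _)
    have h1 := abs_le.1 (hf i)
    have h2 := abs_le.1 (hf' i)
    have h3 := abs_le.1 ih
    apply abs_le.2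
    constructor <;> linarith [h1.1, h1.2, h2.1, h2.2, h3.1, h3.2]
  | pred i ih =>
    apply near_small hn (hc _)
    have h1 := abs_le.1 (hf (-(i : ℤ) - 1))
    have h2 := abs_le.1 (hf' (-(i : ℤ) - 1))
    rw [sub_add_cancel] at h1 h2
    have h3 := abs_le.1 ih
    apply abs_le.2
    constructor <;> linarith [h1.1, h1.2, h2.1, h2.2, h3.1, h3.2]

/-- the lattice of triples of the same parity -/
private def T (a b c : ℤ) : Fin 3 → ℤ := ![a + b + c, a + b - c, a - b + c]

private theorem T0 (a b c : ℤ) : T a b c 0 = a + b + c := rfl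
private theorem T1 (a b c : ℤ) : T a b c 1 = a + b - c := rfl
private theorem T2 (a b c : ℤ) : T a b c 2 = a - b + c := rfl

private theorem T_even (a b c : ℤ) : EvenT (T a b c) := by
  intro i j
  fin_cases i <;> fin_cases j <;> simp only [Fin.zero_eta, Fin.mk_one, Fin.reduceFinMk, T0, T1, T2]
    <;> omega

private theorem all3 {P : Fin 3 → Prop} (h0 : P 0) (h1 : P 1) (h2 : P 2) : ∀ i, P i := by
  intro i
  fin_cases i
  · exact h0
  · exact h1
  · exact h2

private theorem exists_T {z : Fin 3 → ℤ} (hz : EvenT z) : ∃ a b c, z = T a b c := by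
  obtain ⟨u, hu⟩ := hz 0 1
  obtain ⟨v, hv⟩ := hz 0 2
  refine ⟨z 0 - u - v, v, u, ?_⟩
  have e0 : z 0 = T (z 0 - u - v) v u 0 := by
    rw [T0]
    ring
  have e1 : z 1 = T (z 0 - u - v) v u 1 := by
    rw [T1]
    linarith
  have e2 : z 2 = T (z 0 - u - v) v u 2 := by
    rw [T2]
    linarith
  exact funext (all3 e0 e1 e2)

end Lift3Aux

open Lift3Aux

theorem exists_lift {n L : ℕ} (hn : 5 ≤ n) (G : (Fin 3 → ZMod L) → ZMod n)
    (hG : ∀ x x', Good x → Good x' → (∀ i, Step1 (x i) (x' i)) → Near (G x) (G x'))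
    (k0 : ℤ) (h0 : ((k0 : ℤ) : ZMod n) = G (red 0)) : ∃ Ψ, Lift G k0 Ψ := by
  have hGz : ∀ z z', EvenT z → EvenT z' → (∀ i, |z' i - z i| = 1) →
      Near (G (red z)) (G (red z')) := by
    intro z z' hz hz' h
    refine hG _ _ ⟨z, hz, rfl⟩ ⟨z', hz', rfl⟩ fun i => ?_
    unfold Step1 red
    rcases (abs_eq (by norm_num : (0 : ℤ) ≤ 1)).1 (h i) with h1 | h1
    · left
      have h2 : z' i = z i + 1 := by linarith
      rw [h2]
      push_cast
      ring
    · right
      have h2 : z' i = z i - 1 := by linarith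
      rw [h2]
      push_cast
      ring
  have nA : ∀ a b c, Near (G (red (T a b c))) (G (red (T (a + 1) b c))) := by
    intro a b c
    refine hGz _ _ (T_even _ _ _) (T_even _ _ _) (all3 ?_ ?_ ?_)
    · rw [T0, T0, show a + 1 + b + c - (a + b + c) = 1 by ring]; rfl
    · rw [T1, T1, show a + 1 + b - c - (a + b - c) = 1 by ring]; rfl
    · rw [T2, T2, show a + 1 - b + c - (a - b + c) = 1 by ring]; rfl
  have nB : ∀ a b c, Near (G (red (T a b c))) (G (red (T a (b + 1) c))) := by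
    intro a b c
    refine hGz _ _ (T_even _ _ _) (T_even _ _ _) (all3 ?_ ?_ ?_)
    · rw [T0, T0, show a + (b + 1) + c - (a + b + c) = 1 by ring]; rfl
    · rw [T1, T1, show a + (b + 1) - c - (a + b - c) = 1 by ring]; rfl
    · rw [T2, T2, show a - (b + 1) + c - (a - b + c) = -1 by ring]; rfl
  have nC : ∀ a b c, Near (G (red (T a b c))) (G (red (T a b (c + 1)))) := by
    intro a b c
    refine hGz _ _ (T_even _ _ _) (T_even _ _ _) (all3 ?_ ?_ ?_)
    · rw [T0, T0, show a + b + (c + 1) - (a + b + c) = 1 by ring]; rfl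
    · rw [T1, T1, show a + b - (c + 1) - (a + b - c) = -1 by ring]; rfl
    · rw [T2, T2, show a - b + (c + 1) - (a - b + c) = 1 by ring]; rfl
  have nD : ∀ a b c, Near (G (red (T (a + 1) b c))) (G (red (T a (b + 1) (c + 1)))) := by
    intro a b c
    refine hGz _ _ (T_even _ _ _) (T_even _ _ _) (all3 ?_ ?_ ?_)
    · rw [T0, T0, show a + (b + 1) + (c + 1) - (a + 1 + b + c) = 1 by ring]; rfl
    · rw [T1, T1, show a + (b + 1) - (c + 1) - (a + 1 + b - c) = -1 by ring]; rfl
    · rw [T2, T2, show a - (b + 1) + (c + 1) - (a + 1 - b + c) = -1 by ring]; rfl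
  have hT0 : (T 0 0 0 : Fin 3 → ℤ) = 0 := by
    funext i
    fin_cases i <;> rfl
  obtain ⟨A, hA0, hA1, hA2⟩ := lift1 (fun a => G (red (T a 0 0))) (fun a => nA a 0 0) k0
    (by rw [h0]; show G (red 0) = G (red (T 0 0 0)); rw [hT0])
  have hB : ∀ a, ∃ ψ : ℤ → ℤ, ψ 0 = A a ∧ (∀ b, ((ψ b : ℤ) : ZMod n) = G (red (T a b 0))) ∧
      ∀ b, |ψ (b + 1) - ψ b| ≤ 1 := fun a =>
    lift1 (fun b => G (red (T a b 0))) (fun b => nB a b 0) (A a) (hA1 a)
  choose B hB0 hB1 hB2 using hB
  have hP : ∀ a b, ∃ ψ : ℤ → ℤ, ψ 0 = B a b ∧ (∀ c, ((ψ c : ℤ) : ZMod n) = G (red (T a b c))) ∧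
      ∀ c, |ψ (c + 1) - ψ c| ≤ 1 := fun a b =>
    lift1 (fun c => G (red (T a b c))) (fun c => nC a b c) (B a b) (hB1 a b)
  choose P hP0 hP1 hP2 using hP
  have sB : ∀ a b c, |P a (b + 1) c - P a b c| ≤ 1 := by
    intro a b c
    refine prop hn (hP2 a b) (hP2 a (b + 1)) (fun c => ?_) ?_ c
    · rw [hP1, hP1]
      exact nB a b c
    · rw [hP0, hP0]
      exact hB2 a b
  have sAB : ∀ a b, |B (a + 1) b - B a b| ≤ 1 := by
    intro a b
    refine prop hn (hB2 a) (hB2 (a + 1)) (fun b => ?_) ?_ b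
    · rw [hB1, hB1]
      exact nA a b 0
    · rw [hB0, hB0]
      exact hA2 a
  have sA : ∀ a b c, |P (a + 1) b c - P a b c| ≤ 1 := by
    intro a b c
    refine prop hn (hP2 a b) (hP2 (a + 1) b) (fun c => ?_) ?_ c
    · rw [hP1, hP1]
      exact nA a b c
    · rw [hP0, hP0]
      exact sAB a b
  have sD : ∀ a b c, |P a (b + 1) (c + 1) - P (a + 1) b c| ≤ 1 := by
    intro a b c
    apply near_small hn
    · rw [hP1, hP1]
      exact nD a b c
    · have h1 := abs_le.1 (sB a b (c + 1))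
      have h2 := abs_le.1 (hP2 a b c)
      have h3 := abs_le.1 (sA a b c)
      apply abs_le.2
      constructor <;> linarith [h1.1, h1.2, h2.1, h2.2, h3.1, h3.2]
  have hval : ∀ a b c, P ((T a b c 1 + T a b c 2) / 2) ((T a b c 0 - T a b c 2) / 2)
      ((T a b c 0 - T a b c 1) / 2) = P a b c := by
    intro a b c
    rw [T0, T1, T2]
    have e1 : (a + b - c + (a - b + c)) / 2 = a := by omega
    have e2 : (a + b + c - (a - b + c)) / 2 = b := by omega
    have e3 : (a + b + c - (a + b - c)) / 2 = c := by omega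
    rw [e1, e2, e3]
  refine ⟨fun z => P ((z 1 + z 2) / 2) ((z 0 - z 2) / 2) ((z 0 - z 1) / 2), ?_, ?_, ?_⟩
  · have h1 := hval 0 0 0
    rw [hT0] at h1
    rw [h1, hP0, hB0, hA0]
  · intro z hz
    obtain ⟨a, b, c, rfl⟩ := exists_T hz
    rw [hval]
    exact hP1 a b c
  · intro z z' hz hz' h
    obtain ⟨a, b, c, rfl⟩ := exists_T hz
    obtain ⟨a', b', c', rfl⟩ := exists_T hz'
    rw [hval, hval]
    have g0 := h 0
    have g1 := h 1
    have g2 := h 2
    rw [T0, T0] at g0
    rw [T1, T1] at g1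
    rw [T2, T2] at g2
    rcases (abs_eq (by norm_num : (0 : ℤ) ≤ 1)).1 g0 with g0 | g0 <;>
    rcases (abs_eq (by norm_num : (0 : ℤ) ≤ 1)).1 g1 with g1 | g1 <;>
    rcases (abs_eq (by norm_num : (0 : ℤ) ≤ 1)).1 g2 with g2 | g2
    · obtain rfl : a' = a + 1 := by omega
      obtain rfl : b' = b := by omega
      obtain rfl : c' = c := by omega
      exact sA _ _ _
    · obtain rfl : a' = a := by omega
      obtain rfl : b' = b + 1 := by omega
      obtain rfl : c' = c := by omega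
      exact sB _ _ _
    · obtain rfl : a' = a := by omega
      obtain rfl : b' = b := by omega
      obtain rfl : c' = c + 1 := by omega
      exact hP2 _ _ _
    · obtain rfl : a = a' + 1 := by omega
      obtain rfl : b' = b + 1 := by omega
      obtain rfl : c' = c + 1 := by omega
      exact sD _ _ _
    · obtain rfl : a' = a + 1 := by omega
      obtain rfl : b = b' + 1 := by omega
      obtain rfl : c = c' + 1 := by omega
      rw [abs_sub_comm]
      exact sD _ _ _
    · obtain rfl : a' = a := by omega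
      obtain rfl : b' = b := by omega
      obtain rfl : c = c' + 1 := by omega
      rw [abs_sub_comm]
      exact hP2 _ _ _
    · obtain rfl : a' = a := by omega
      obtain rfl : b = b' + 1 := by omega
      obtain rfl : c' = c := by omega
      rw [abs_sub_comm]
      exact sB _ _ _
    · obtain rfl : a = a' + 1 := by omega
      obtain rfl : b' = b := by omega
      obtain rfl : c' = c := by omega
      rw [abs_sub_comm]
      exact sA _ _ _

end P2baC
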