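import Pool.Agent.Lib.P2ba8ab.Poly

/-!
# P2baC.PolyT: reductions given by a finite table are computable in polynomial time

The same argument as for `Pool.Agent.Lib.P2ba8ab.poly_red`, for an arbitrary table.
-/

set_option autoImplicit false

namespace P2baC

open Pool.Agent.Lib.P2ba8ab Pool.Agent.Lib.PolyTime Pool.Agent.Lib.Pa7c826

/-- the adjacency function given by a table -/
noncomputable def tabF (c0 R : ℕ) (M : ℕ → ℕ → (Fin 8 → Bool) → Bool) (g : Gr) (i j : ℕ) : Bool :=
  M (iT c0 R i) (iT c0 R j)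
    (bits (adjN g) (iA c0 R g.n i) (iB c0 R g.n i) (iA c0 R g.n j) (iB c0 R g.n j))

theorem poly_tabF (c0 R : ℕ) (M : ℕ → ℕ → (Fin 8 → Bool) → Bool) {α : Type} {D : α → Prop}
    {ctx : List (α → List Bool)} {g : α → Gr} {i j : α → ℕ}
    (hn : PolyN D ctx (fun a => (g a).n))
    (hr : PolyC D ctx (fun a => (List.range ((g a).n * (g a).n)).map
      (fun k => adjN (g a) (k / (g a).n) (k % (g a).n))))
    (hi : PolyN D ctx i) (hj : PolyN D ctx j)
    (hi' : ∀ a, D a → i a < c0 + (g a).n * (g a).n * R)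
    (hj' : ∀ a, D a → j a < c0 + (g a).n * (g a).n * R) :
    PolyB D ctx (fun a => tabF c0 R M (g a) (i a) (j a)) := by
  have hAi := poly_iA (c0 := c0) (R := R) hi hn
  have hBi := poly_iB (c0 := c0) (R := R) hi hn
  have hAj := poly_iA (c0 := c0) (R := R) hj hn
  have hBj := poly_iB (c0 := c0) (R := R) hj hn
  -- the matrix entries
  have hent : ∀ {u v : α → ℕ}, PolyN D ctx u → PolyN D ctx v →
      PolyB D ctx (fun a => (decide (v a < (g a).n)) && adjN (g a) (u a) (v a)) := by
    intro u v hu hv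
    refine ((PolyB.lt hv hn).and (PolyB.getD hr ((hu.mul hn).add hv))).congr (fun a _ => ?_)
    by_cases h : v a < (g a).n
    · rw [adjN_getD _ _ _ h]
    · simp [h]
  have hent' : ∀ {u v : α → ℕ}, PolyN D ctx u → PolyN D ctx v →
      PolyB D ctx (fun a => adjN (g a) (u a) (v a)) := by
    intro u v hu hv
    refine (hent hu hv).congr (fun a _ => ?_)
    by_cases h : v a < (g a).n
    · simp [h]
    · simp [h, adjN]
  have hbits : ∀ k : Fin 8, PolyB D ctx (fun a => bits (adjN (g a)) (iA c0 R (g a).n (i a))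
      (iB c0 R (g a).n (i a)) (iA c0 R (g a).n (j a)) (iB c0 R (g a).n (j a)) k) := by
    intro k
    fin_cases k
    · exact (PolyB.natEq hAj hAi).and (PolyB.natEq hBj hBi)
    · exact (PolyB.natEq hAj hAi).and (PolyB.natEq hBj hAi)
    · exact (PolyB.natEq hAj hBi).and (PolyB.natEq hBj hBi)
    · exact (PolyB.natEq hAi hAj).and (PolyB.natEq hBi hBj)
    · exact (PolyB.natEq hAi hAj).and (PolyB.natEq hBi hAj)
    · exact (PolyB.natEq hAi hBj).and (PolyB.natEq hBi hBj)
    · exact hent' hAi hBi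
    · exact hent' hAj hBj
  have hlt : ∀ {u : α → ℕ}, (∀ a, D a → u a < c0 + (g a).n * (g a).n * R) →
      ∀ a, D a → iT c0 R (u a) < c0 + R := by
    intro u hu a ha
    have h1 := hu a ha
    unfold iT
    split_ifs with h
    · simp only [decide_eq_true_eq] at h
      omega
    · simp only [decide_eq_true_eq] at h
      have hR : 0 < R := by
        rcases Nat.eq_zero_or_pos R with h0 | h0
        · subst h0; omega
        · exact h0
      have := Nat.mod_lt (u a - c0) hR
      omega
  unfold tabF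
  refine bCases (poly_iT hi) (fun k a => M k (iT c0 R (j a))
    (bits (adjN (g a)) (iA c0 R (g a).n (i a)) (iB c0 R (g a).n (i a)) (iA c0 R (g a).n (j a))
      (iB c0 R (g a).n (j a)))) (c0 + R) ?_ (hlt hi')
  intro k _
  refine bCases (poly_iT hj) (fun k' a => M k k'
    (bits (adjN (g a)) (iA c0 R (g a).n (i a)) (iB c0 R (g a).n (i a)) (iA c0 R (g a).n (j a))
      (iB c0 R (g a).n (j a)))) (c0 + R) ?_ (hlt hj')
  intro k' _
  exact bFun (M k k') hbits

/-- a reduction given by a table is computable in polynomial time -/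
theorem poly_of_table (c0 R : ℕ) (M : ℕ → ℕ → (Fin 8 → Bool) → Bool) (red : Gr → Gr)
    (hn' : ∀ g, (red g).n = c0 + g.n * g.n * R)
    (hadj : ∀ g i j, i < c0 + g.n * g.n * R → j < c0 + g.n * g.n * R →
      adjN (red g) i j = tabF c0 R M g i j) :
    PolyC (fun _ : Gr => True) [Gr.encode] (fun g => (red g).encode) := by
  have hn : PolyN (fun _ : Gr => True) [Gr.encode] (fun g => g.n) := poly_n
  have hM : PolyN (fun _ : Gr => True) [Gr.encode] (fun g => c0 + g.n * g.n * R) :=
    (PolyN.const c0).add ((hn.mul hn).mul (PolyN.const R))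
  have hMM := hM.mul hM
  have hN := upN (n := fun g : Gr => (c0 + g.n * g.n * R) * (c0 + g.n * g.n * R)) hn
  have hMu := upN (n := fun g : Gr => (c0 + g.n * g.n * R) * (c0 + g.n * g.n * R)) hM
  have hr := up (n := fun g : Gr => (c0 + g.n * g.n * R) * (c0 + g.n * g.n * R))
    (poly_rest (D := fun _ : Gr => True))
  have hL := last (D := fun _ : Gr => True) (ctx := [Gr.encode])
    (n := fun g : Gr => (c0 + g.n * g.n * R) * (c0 + g.n * g.n * R))
  have hpos : ∀ p : Gr × ℕ, True ∧ p.2 < (c0 + p.1.n * p.1.n * R) * (c0 + p.1.n * p.1.n * R) →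
      0 < c0 + p.1.n * p.1.n * R := by
    rintro p ⟨-, h⟩
    rcases Nat.eq_zero_or_pos (c0 + p.1.n * p.1.n * R) with h0 | h0
    · rw [h0] at h; omega
    · exact h0
  have h1 := poly_tabF c0 R M (g := fun p : Gr × ℕ => p.1)
    (i := fun p => p.2 / (c0 + p.1.n * p.1.n * R)) (j := fun p => p.2 % (c0 + p.1.n * p.1.n * R))
    hN hr (nDiv' hL hMu) (nMod' hL hMu)
    (fun p hp => (Nat.div_lt_iff_lt_mul (hpos p hp)).2 hp.2)
    (fun p hp => Nat.mod_lt _ (hpos p hp))
  have h2 := PolyC.map_range hMM h1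
  have h3 := PolyC.append hM (PolyC.cons false h2)
  refine h3.congr (fun g _ => ?_)
  rw [encode_eq]
  rw [hn']
  congr 2
  refine List.map_congr_left ?_
  intro k hk
  rw [List.mem_range] at hk
  have hp := hpos (g, k) ⟨trivial, hk⟩
  exact (hadj g _ _ ((Nat.div_lt_iff_lt_mul hp).2 hk) (Nat.mod_lt _ hp)).symm

end P2baC
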