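import Pool.Agent.Lib.P2baC.Defs
import Pool.Agent.Lib.P2baC.PolyT

/-!
# P2baC.Table: the reduction is given by a finite table
-/

set_option autoImplicit false

namespace P2baC

open Pool.Agent.Lib.P2ba8ab Pool.Agent.Lib.PolyTime Pool.Agent.Lib.Pa7c826

variable {V : Type} {L c0 R : ℕ}

/-- the nodes as indices -/
def nodeE (e0 : Fin c0 ≃ V ⊕ ZMod L) (e1 : Fin R ≃ Fin 3 × Pos L) (N : ℕ) :
    Fin c0 ⊕ ((Fin N × Fin N) × Fin R) ≃ W V L N :=
  Equiv.sumCongr e0 (Equiv.prodCongr (Equiv.refl _) e1)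

/-- the reduction -/
noncomputable def redC (H : V → V → Prop) (σ : ZMod L → V) (e0 : Fin c0 ≃ V ⊕ ZMod L)
    (e1 : Fin R ≃ Fin 3 × Pos L) (g : Gr) : Gr where
  n := c0 + g.n * g.n * R
  G := (gr H σ (fun p : Fin g.n × Fin g.n => adjN g p.1 p.2 = true)).comap
    ((idx c0 R g.n).symm.trans (nodeE e0 e1 g.n))

/-- the table of the directed edges -/
def relM (H : V → V → Prop) (σ : ZMod L → V) (e0 : Fin c0 ≃ V ⊕ ZMod L)
    (e1 : Fin R ≃ Fin 3 × Pos L) :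
    Fin c0 ⊕ Fin R → Fin c0 ⊕ Fin R → Bool → Bool → Bool → Bool → Prop
  | Sum.inl u, Sum.inl v, _, _, _, _ =>
      Rel (N := 0) H σ (fun _ => False) (Sum.inl (e0 u)) (Sum.inl (e0 v))
  | Sum.inl u, Sum.inr t, _, _, _, _ => ∃ s, e0 u = Sum.inr s ∧ ∀ i, Step1 s ((e1 t).2.1 i)
  | Sum.inr _, Sum.inl _, _, _, _, _ => False
  | Sum.inr t, Sum.inr t', z0, z1, z2, z6 =>
      (z0 = true ∧ (e1 t').1 = (e1 t).1 ∧ ∀ i, Step1 ((e1 t).2.1 i) ((e1 t').2.1 i)) ∨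
      (z6 = true ∧ (e1 t').1 = 0 ∧ ((z1 = true ∧ CR (e1 t).1 0 (e1 t').2.1 (e1 t).2.1) ∨
        (z2 = true ∧ CR (e1 t).1 1 (e1 t').2.1 (e1 t).2.1)))

/-- the table of the pairs of different nodes -/
def neM : Fin c0 ⊕ Fin R → Fin c0 ⊕ Fin R → Bool → Prop
  | Sum.inl u, Sum.inl v, _ => u ≠ v
  | Sum.inr t, Sum.inr t', z0 => ¬ (t = t' ∧ z0 = true)
  | _, _, _ => True

open Classical in
/-- the table of the adjacency -/
noncomputable def tabM (H : V → V → Prop) (σ : ZMod L → V) (e0 : Fin c0 ≃ V ⊕ ZMod L)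
    (e1 : Fin R ≃ Fin 3 × Pos L) (k k' : ℕ) (z : Fin 8 → Bool) : Bool :=
  match tagN c0 R k, tagN c0 R k' with
  | some x, some y => decide (neM x y (z 0) ∧
      (relM H σ e0 e1 x y (z 0) (z 1) (z 2) (z 6) ∨ relM H σ e0 e1 y x (z 3) (z 4) (z 5) (z 7)))
  | _, _ => false

theorem rel_iff (H : V → V → Prop) (σ : ZMod L → V) (e0 : Fin c0 ≃ V ⊕ ZMod L)
    (e1 : Fin R ≃ Fin 3 × Pos L) {N : ℕ} {Fb : ℕ → ℕ → Bool}
    (w w' : Fin c0 ⊕ ((Fin N × Fin N) × Fin R)) :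
    Rel H σ (fun p : Fin N × Fin N => Fb p.1 p.2 = true) (nodeE e0 e1 N w) (nodeE e0 e1 N w') ↔
      relM H σ e0 e1 (tagI w) (tagI w')
        (bits Fb (iA c0 R N (idx c0 R N w)) (iB c0 R N (idx c0 R N w))
          (iA c0 R N (idx c0 R N w')) (iB c0 R N (idx c0 R N w')) 0)
        (bits Fb (iA c0 R N (idx c0 R N w)) (iB c0 R N (idx c0 R N w))
          (iA c0 R N (idx c0 R N w')) (iB c0 R N (idx c0 R N w')) 1)
        (bits Fb (iA c0 R N (idx c0 R N w)) (iB c0 R N (idx c0 R N w))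
          (iA c0 R N (idx c0 R N w')) (iB c0 R N (idx c0 R N w')) 2)
        (bits Fb (iA c0 R N (idx c0 R N w)) (iB c0 R N (idx c0 R N w))
          (iA c0 R N (idx c0 R N w')) (iB c0 R N (idx c0 R N w')) 6) := by
  rcases w with u | ⟨⟨a, b⟩, t⟩ <;> rcases w' with u' | ⟨⟨a', b'⟩, t'⟩
  · simp only [nodeE, Equiv.sumCongr_apply, Sum.map_inl, tagI, relM]
    rcases e0 u with x | x <;> rcases e0 u' with y | y <;> simp only [Rel]
  · simp only [nodeE, Equiv.sumCongr_apply, Sum.map_inl, Sum.map_inr, tagI, relM,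
      Equiv.prodCongr_apply, Prod.map]
    rcases e0 u with x | x
    · simp [Rel]
    · simp [Rel]
  · simp only [nodeE, Equiv.sumCongr_apply, Sum.map_inl, Sum.map_inr, tagI, relM,
      Equiv.prodCongr_apply, Prod.map]
    rcases e0 u' with x | x <;> simp [Rel]
  · simp only [nodeE, Equiv.sumCongr_apply, Sum.map_inr, tagI, relM, Equiv.prodCongr_apply,
      Prod.map, iA_inr, iB_inr, Rel, Equiv.refl_apply]
    simp only [bits, Bool.and_eq_true, decide_eq_true_eq, Prod.mk.injEq, Fin.ext_iff]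

theorem adj_iff (H : V → V → Prop) (σ : ZMod L → V) (e0 : Fin c0 ≃ V ⊕ ZMod L)
    (e1 : Fin R ≃ Fin 3 × Pos L) {N : ℕ} {Fb : ℕ → ℕ → Bool}
    (w w' : Fin c0 ⊕ ((Fin N × Fin N) × Fin R)) :
    (gr H σ (fun p : Fin N × Fin N => Fb p.1 p.2 = true)).Adj (nodeE e0 e1 N w)
        (nodeE e0 e1 N w') ↔
      tabM H σ e0 e1 (iT c0 R (idx c0 R N w)) (iT c0 R (idx c0 R N w'))
        (bits Fb (iA c0 R N (idx c0 R N w)) (iB c0 R N (idx c0 R N w))
          (iA c0 R N (idx c0 R N w')) (iB c0 R N (idx c0 R N w'))) = true := by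
  unfold gr tabM
  rw [SimpleGraph.fromRel_adj, rel_iff, rel_iff, tagN_idx, tagN_idx]
  simp only [decide_eq_true_eq]
  have hne : nodeE e0 e1 N w ≠ nodeE e0 e1 N w' ↔ neM (tagI w) (tagI w')
      (bits Fb (iA c0 R N (idx c0 R N w)) (iB c0 R N (idx c0 R N w))
          (iA c0 R N (idx c0 R N w')) (iB c0 R N (idx c0 R N w')) 0) := by
    rw [ne_eq, EmbeddingLike.apply_eq_iff_eq]
    rcases w with u | ⟨⟨a, b⟩, t⟩ <;> rcases w' with u' | ⟨⟨a', b'⟩, t'⟩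
    · simp [tagI, neM]
    · simp [tagI, neM]
    · simp [tagI, neM]
    · simp only [tagI, neM, iA_inr, iB_inr, bits, Bool.and_eq_true, decide_eq_true_eq,
        Sum.inr.injEq, Prod.mk.injEq, Fin.ext_iff]
      omega
  rw [hne]
  refine and_congr Iff.rfl (or_congr Iff.rfl ?_)
  have e1' : ∀ a b a' b' : ℕ, bits Fb a b a' b' 0 = bits Fb a' b' a b 3 := fun _ _ _ _ => rfl
  have e2' : ∀ a b a' b' : ℕ, bits Fb a b a' b' 1 = bits Fb a' b' a b 4 := fun _ _ _ _ => rfl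
  have e3' : ∀ a b a' b' : ℕ, bits Fb a b a' b' 2 = bits Fb a' b' a b 5 := fun _ _ _ _ => rfl
  have e4' : ∀ a b a' b' : ℕ, bits Fb a b a' b' 6 = bits Fb a' b' a b 7 := fun _ _ _ _ => rfl
  rw [e1', e2', e3', e4']

theorem poly_redC (H : V → V → Prop) (σ : ZMod L → V) (e0 : Fin c0 ≃ V ⊕ ZMod L)
    (e1 : Fin R ≃ Fin 3 × Pos L) :
    PolyC (fun _ : Gr => True) [Gr.encode] (fun g => (redC H σ e0 e1 g).encode) := by
  refine poly_of_table c0 R (tabM H σ e0 e1) (redC H σ e0 e1) (fun _ => rfl) ?_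
  intro g i j hi hj
  obtain ⟨w, hw⟩ : ∃ w, idx c0 R g.n w = ⟨i, hi⟩ := ⟨_, Equiv.apply_symm_apply _ _⟩
  obtain ⟨w', hw'⟩ : ∃ w, idx c0 R g.n w = ⟨j, hj⟩ := ⟨_, Equiv.apply_symm_apply _ _⟩
  have hwi : i = (idx c0 R g.n w : ℕ) := by rw [hw]
  have hwj : j = (idx c0 R g.n w' : ℕ) := by rw [hw']
  rw [Bool.eq_iff_iff]
  have h1 := adjN_fin (redC H σ e0 e1 g) ⟨i, hi⟩ ⟨j, hj⟩
  simp only at h1
  rw [h1]
  unfold redC tabF
  simp only [SimpleGraph.comap_adj, Equiv.trans_apply]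
  rw [← hw, ← hw', Equiv.symm_apply_apply, Equiv.symm_apply_apply, adj_iff, hw, hw']

/-- the reduction is the instance, up to the names of the vertices -/
theorem surj_redC (H : V → V → Prop) (σ : ZMod L → V) (e0 : Fin c0 ≃ V ⊕ ZMod L)
    (e1 : Fin R ≃ Fin 3 × Pos L) (g : Gr) :
    SurjHom (redC H σ e0 e1 g).G H ↔
      SurjHom (gr H σ (fun p : Fin g.n × Fin g.n => adjN g p.1 p.2 = true)) H := by
  set E := (idx c0 R g.n).symm.trans (nodeE e0 e1 g.n) with hE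
  constructor
  · rintro ⟨f, h1, h2⟩
    refine ⟨fun w => f (E.symm w), fun a b hab => h1 _ _ ?_, h2.comp E.symm.surjective⟩
    change (gr H σ _).Adj (E (E.symm a)) (E (E.symm b))
    rw [Equiv.apply_symm_apply, Equiv.apply_symm_apply]
    exact hab
  · rintro ⟨f, h1, h2⟩
    exact ⟨fun w => f (E w), fun a b hab => h1 _ _ hab, h2.comp E.surjective⟩

end P2baC
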