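import Pool.Agent.Lib.P2baC.Defs

/-!
# P2baC.Torus: Lipschitz property and periods of a lift

PROOFS.
`lip`: induction on `D`.  `D = 0`: `z = z'`.  Step `D + 1`: if `|z' i - z i| ≤ D` for all `i` use the
induction hypothesis.  Otherwise some `|z' i - z i| = D + 1`, and as `z, z'` are even triples all the
differences `z' i - z i` have the parity of `D + 1`.  Let `y i := z i + 1` if `z i < z' i`,
`z i - 1` otherwise.  `y` is an even triple, `|y i - z i| = 1`, and `|z' i - y i| ≤ D`: clear if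
`z i ≠ z' i`; if `z i = z' i` then `D + 1` is even, so `D ≥ 1 = |z' i - y i|`.
`period`: for `v : Fin 3 → ℤ` put `D_v z := Ψ (z + L v) - Ψ z` (`z` even; then `z + L v` is even as
`L` is even).  `D_v z ≡ 0` mod `n` by `cast` (`red (z + L v) = red z`), and `|D_v z' - D_v z| ≤ 2`
if `z, z'` are even with `|z' i - z i| = 1`, so `D_v z' = D_v z` as `n ≥ 3`.  Any even triple is
joined to `0` by such steps (e.g. by the same induction as in `lip`: the statement
`(∀ i, |z' i - z i| ≤ D) → D_v z' = D_v z` by induction on `D : ℕ`), so `D_v z = D_v 0 = n * w v` for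
some `w v : ℤ`.  `w (v + v') = w v + w v'` (evaluate at `z = 0` and at `z = L v`), so
`w v = ∑ i, w (Pi.single i 1) * v i` (additive maps `ℤ^3 → ℤ`; e.g. build an `AddMonoidHom` and use
`Finset.univ_sum_single`/`map_sum`/`zsmul`).
`winding`: by `lip` with `z = 0`, `z' = L s`, `D = L`, and `hw`:
`n * |∑ w i * s i| = |Ψ (L s) - Ψ 0| ≤ L < 2 n`.
`w_cases`: with `S = w 0 + w 1 + w 2`, `|S| ≤ 1`, `|S - 2 w i| ≤ 1` for each `i` (sign vector with
`-1` at `i`).  `S = 0`: `|2 w i| ≤ 1`.  `S = 1`: `w i ∈ {0, 1}` for each `i`, and their sum is 1.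
`S = -1`: `w i ∈ {0,-1}`.
-/

set_option autoImplicit false

namespace P2baC

namespace TorusAux

theorem step_bound {f : (Fin 3 → ℤ) → ℤ} {c : ℤ} (hc : 0 ≤ c)
    (h : ∀ z z', EvenT z → EvenT z' → (∀ i, |z' i - z i| = 1) → |f z' - f z| ≤ c) (D : ℕ) :
    ∀ z z', EvenT z → EvenT z' → (∀ i, |z' i - z i| ≤ D) → |f z' - f z| ≤ c * D := by
  induction D with
  | zero =>
    intro z z' _ _ hD
    have h1 : z' = z := by
      funext i
      have h2 := abs_le.1 (hD i)
      push_cast at h2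
      omega
    rw [h1]
    simp
  | succ D ih =>
    intro z z' hz hz' hD
    by_cases hall : ∀ i, |z' i - z i| ≤ D
    · refine (ih z z' hz hz' hall).trans ?_
      push_cast
      nlinarith
    · push Not at hall
      obtain ⟨i0, hi0⟩ := hall
      obtain ⟨y, hy⟩ : ∃ y : Fin 3 → ℤ, y = fun i => if z i < z' i then z i + 1 else z i - 1 :=
        ⟨_, rfl⟩
      have hy' : ∀ i, (z i < z' i → y i = z i + 1) ∧ (¬ z i < z' i → y i = z i - 1) := by
        intro i
        rw [hy]
        constructor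
        · intro h1
          show (if z i < z' i then z i + 1 else z i - 1) = _
          rw [if_pos h1]
        · intro h1
          show (if z i < z' i then z i + 1 else z i - 1) = _
          rw [if_neg h1]
      have hyE : EvenT y := by
        intro i j
        have h1 := hz i j
        have h2 := hy' i
        have h3 := hy' j
        omega
      have hy1 : ∀ i, |y i - z i| = 1 := by
        intro i
        have h2 := hy' i
        by_cases h1 : z i < z' i
        · rw [h2.1 h1]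
          simp
        · rw [h2.2 h1]
          simp
      have hy2 : ∀ i, |z' i - y i| ≤ D := by
        intro i
        have h1 := hy' i
        have h2 := abs_le.1 (hD i)
        have h3 := hz i i0
        have h4 := hz' i i0
        have h5 : (D : ℤ) < z' i0 - z i0 ∨ z' i0 - z i0 < -D := by
          rcases lt_abs.1 hi0 with h | h
          · exact Or.inl h
          · right
            omega
        have h6 := abs_le.1 (hD i0)
        push_cast at h2 h6
        rw [abs_le]
        omega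
      have h1 := ih y z' hyE hz' hy2
      have h2 := h z y hz hyE hy1
      have h3 : |f z' - f z| ≤ |f z' - f y| + |f y - f z| := abs_sub_le _ _ _
      push_cast
      linarith

theorem exists_bd (z : Fin 3 → ℤ) : ∃ D : ℕ, ∀ i, |z i - (0 : Fin 3 → ℤ) i| ≤ D := by
  refine ⟨∑ i, (z i).natAbs, fun i => ?_⟩
  have h1 : (z i).natAbs ≤ ∑ i, (z i).natAbs :=
    Finset.single_le_sum (f := fun i => (z i).natAbs) (fun _ _ => Nat.zero_le _)
      (Finset.mem_univ i)
  rw [Pi.zero_apply, sub_zero, Int.abs_eq_natAbs]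
  exact_mod_cast h1

theorem evenT_zero : EvenT 0 := fun _ _ => by simp

theorem evenT_add {L : ℕ} (hL : Even L) {z : Fin 3 → ℤ} (hz : EvenT z) (v : Fin 3 → ℤ) :
    EvenT (fun i => z i + L * v i) := by
  intro i j
  obtain ⟨c, hc⟩ := hL
  have h1 : (z i + L * v i) - (z j + L * v j) = (z i - z j) + 2 * (c * (v i - v j)) := by
    rw [hc]
    push_cast
    ring
  show (2 : ℤ) ∣ (z i + L * v i) - (z j + L * v j)
  rw [h1]
  exact dvd_add (hz i j) (dvd_mul_right _ _)

theorem red_add {L : ℕ} (z v : Fin 3 → ℤ) : (red (fun i => z i + L * v i) : Fin 3 → ZMod L) =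
    red z := by
  funext i
  unfold red
  push_cast
  rw [ZMod.natCast_self, zero_mul, add_zero]

end TorusAux

open TorusAux

theorem Lift.lip {n L : ℕ} {G : (Fin 3 → ZMod L) → ZMod n} {k0 : ℤ} {Ψ : (Fin 3 → ℤ) → ℤ}
    (h : Lift G k0 Ψ) (D : ℕ) : ∀ z z', EvenT z → EvenT z' → (∀ i, |z' i - z i| ≤ D) →
      |Ψ z' - Ψ z| ≤ D := by
  intro z z' hz hz' hD
  have h1 := step_bound (zero_le_one) h.step D z z' hz hz' hD
  rwa [one_mul] at h1

theorem Lift.period {n L : ℕ} (hn : 3 ≤ n) (hL : Even L) {G : (Fin 3 → ZMod L) → ZMod n} {k0 : ℤ}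
    {Ψ : (Fin 3 → ℤ) → ℤ} (h : Lift G k0 Ψ) :
    ∃ w : Fin 3 → ℤ, ∀ z v : Fin 3 → ℤ, EvenT z →
      Ψ (fun i => z i + L * v i) = Ψ z + n * ∑ i, w i * v i := by
  have hn0 : (n : ℤ) ≠ 0 := by omega
  have hdvd : ∀ z v : Fin 3 → ℤ, EvenT z → (n : ℤ) ∣ Ψ (fun i => z i + L * v i) - Ψ z := by
    intro z v hz
    rw [← ZMod.intCast_eq_intCast_iff_dvd_sub, h.cast _ hz, h.cast _ (evenT_add hL hz v), red_add]
  have hconst : ∀ v z : Fin 3 → ℤ, EvenT z →
      Ψ (fun i => z i + L * v i) - Ψ z = Ψ (fun i => (0 : Fin 3 → ℤ) i + L * v i) - Ψ 0 := by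
    intro v z hz
    obtain ⟨D, hD⟩ := exists_bd z
    have h1 := step_bound (f := fun z => Ψ (fun i => z i + L * v i) - Ψ z) (c := 0) le_rfl
      (fun z z' hz hz' hs => by
        have h2 := h.step z z' hz hz' hs
        have h3 := h.step (fun i => z i + L * v i) (fun i => z' i + L * v i)
          (evenT_add hL hz v) (evenT_add hL hz' v) (fun i => by
            have h4 : z' i + L * v i - (z i + L * v i) = z' i - z i := by ring
            rw [h4]
            exact hs i)
        obtain ⟨a, ha⟩ := hdvd z v hz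
        obtain ⟨b, hb⟩ := hdvd z' v hz'
        show |(Ψ (fun i => z' i + L * v i) - Ψ z') - (Ψ (fun i => z i + L * v i) - Ψ z)| ≤ 0
        rw [abs_le] at h2 h3
        have h5 : b = a := by
          have h6 : n * (b - a) = (Ψ (fun i => z' i + L * v i) - Ψ z') -
            (Ψ (fun i => z i + L * v i) - Ψ z) := by
            rw [hb, ha]
            ring
          have h7 : n * (b - a) ≤ 2 := by linarith [h2.1, h2.2, h3.1, h3.2]
          have h8 : -2 ≤ n * (b - a) := by linarith [h2.1, h2.2, h3.1, h3.2]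
          have h9 : (3 : ℤ) ≤ n := by exact_mod_cast hn
          have h10 : b - a < 1 := by nlinarith
          have h11 : -1 < b - a := by nlinarith
          omega
        rw [hb, ha, h5]
        simp) D 0 z evenT_zero hz hD
    have h12 : (Ψ (fun i => z i + L * v i) - Ψ z) -
        (Ψ (fun i => (0 : Fin 3 → ℤ) i + L * v i) - Ψ 0) = 0 := by
      rw [zero_mul] at h1
      exact abs_nonpos_iff.1 h1
    linarith
  let d : (Fin 3 → ℤ) → ℤ := fun v =>
    (Ψ (fun i => (0 : Fin 3 → ℤ) i + L * v i) - Ψ 0) / n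
  have hd : ∀ v, Ψ (fun i => (0 : Fin 3 → ℤ) i + L * v i) - Ψ 0 = n * d v := fun v =>
    (Int.mul_ediv_cancel' (hdvd 0 v evenT_zero)).symm
  have hadd : ∀ u v, d (u + v) = d u + d v := by
    intro u v
    have h1 := hconst v (fun i => (0 : Fin 3 → ℤ) i + L * u i) (evenT_add hL evenT_zero u)
    rw [hd v] at h1
    have h2 : (fun i => (fun i => (0 : Fin 3 → ℤ) i + L * u i) i + L * v i) =
        fun i => (0 : Fin 3 → ℤ) i + L * (u + v) i := by
      funext i
      simp only [Pi.zero_apply, Pi.add_apply]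
      ring
    rw [h2] at h1
    have h3 := hd (u + v)
    have h4 := hd u
    have h5 : (n : ℤ) * d (u + v) = n * (d u + d v) := by linarith
    exact mul_left_cancel₀ hn0 h5
  have hd0 : d 0 = 0 := by
    have h1 := hadd 0 0
    rw [add_zero] at h1
    omega
  let φ : (Fin 3 → ℤ) →+ ℤ := { toFun := d, map_zero' := hd0, map_add' := hadd }
  refine ⟨fun i => d (fun j => if i = j then 1 else 0), fun z v hz => ?_⟩
  have h1 := LinearMap.pi_apply_eq_sum_univ φ.toIntLinearMap v
  have h2 : d v = ∑ i, d (fun j => if i = j then 1 else 0) * v i := by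
    refine Eq.trans h1 (Finset.sum_congr rfl fun i _ => ?_)
    rw [smul_eq_mul, mul_comm]
    rfl
  have h3 := hconst v z hz
  rw [hd v, h2] at h3
  linarith

theorem Lift.winding {n L : ℕ} (hLn : L < 2 * n) (hL : Even L)
    {G : (Fin 3 → ZMod L) → ZMod n} {k0 : ℤ} {Ψ : (Fin 3 → ℤ) → ℤ} (h : Lift G k0 Ψ)
    {w : Fin 3 → ℤ} (hw : ∀ z v : Fin 3 → ℤ, EvenT z →
      Ψ (fun i => z i + L * v i) = Ψ z + n * ∑ i, w i * v i)
    (s : Fin 3 → ℤ) (hs : ∀ i, |s i| = 1) : |∑ i, w i * s i| ≤ 1 := by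
  have h1 := h.lip L 0 (fun i => (0 : Fin 3 → ℤ) i + L * s i) evenT_zero
    (evenT_add hL evenT_zero s) (fun i => by
      have h2 : (0 : Fin 3 → ℤ) i + L * s i - (0 : Fin 3 → ℤ) i = L * s i := by ring
      rw [h2, abs_mul, hs i, mul_one]
      simp)
  rw [hw 0 s evenT_zero, add_sub_cancel_left, abs_mul] at h1
  have h3 : |(n : ℤ)| = n := by simp
  rw [h3] at h1
  have h4 : (L : ℤ) < 2 * n := by exact_mod_cast hLn
  by_contra hcon
  have h5 : 2 ≤ |∑ i, w i * s i| := by omega
  nlinarith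

theorem w_cases {w : Fin 3 → ℤ}
    (h : ∀ s : Fin 3 → ℤ, (∀ i, |s i| = 1) → |∑ i, w i * s i| ≤ 1) :
    |∑ i, w i| ≤ 1 ∧ (∑ i, w i = 0 → ∀ i, w i = 0) ∧
      (∑ i, w i = 1 → ∃ j, ∀ i, w i = if i = j then 1 else 0) ∧
      (∑ i, w i = -1 → ∃ j, ∀ i, w i = if i = j then -1 else 0) := by
  have h0 := abs_le.1 (h ![1, 1, 1] (by intro i; fin_cases i <;> simp))
  have h1 := abs_le.1 (h ![-1, 1, 1] (by intro i; fin_cases i <;> simp))
  have h2 := abs_le.1 (h ![1, -1, 1] (by intro i; fin_cases i <;> simp))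
  have h3 := abs_le.1 (h ![1, 1, -1] (by intro i; fin_cases i <;> simp))
  simp only [Fin.sum_univ_three, Matrix.cons_val_zero, Matrix.cons_val_one, Matrix.cons_val,
    mul_one, mul_neg] at h0 h1 h2 h3
  simp only [Fin.sum_univ_three]
  refine ⟨abs_le.2 (by omega), ?_, ?_, ?_⟩
  · intro hs i
    fin_cases i <;> simp <;> omega
  · intro hs
    have h4 : w 0 = 1 ∧ w 1 = 0 ∧ w 2 = 0 ∨ w 0 = 0 ∧ w 1 = 1 ∧ w 2 = 0 ∨
        w 0 = 0 ∧ w 1 = 0 ∧ w 2 = 1 := by omega
    rcases h4 with ⟨a, b, c⟩ | ⟨a, b, c⟩ | ⟨a, b, c⟩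
    · exact ⟨0, by intro i; fin_cases i <;> simp [a, b, c]⟩
    · exact ⟨1, by intro i; fin_cases i <;> simp [a, b, c]⟩
    · exact ⟨2, by intro i; fin_cases i <;> simp [a, b, c]⟩
  · intro hs
    have h4 : w 0 = -1 ∧ w 1 = 0 ∧ w 2 = 0 ∨ w 0 = 0 ∧ w 1 = -1 ∧ w 2 = 0 ∨
        w 0 = 0 ∧ w 1 = 0 ∧ w 2 = -1 := by omega
    rcases h4 with ⟨a, b, c⟩ | ⟨a, b, c⟩ | ⟨a, b, c⟩
    · exact ⟨0, by intro i; fin_cases i <;> simp [a, b, c]⟩
    · exact ⟨1, by intro i; fin_cases i <;> simp [a, b, c]⟩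
    · exact ⟨2, by intro i; fin_cases i <;> simp [a, b, c]⟩

end P2baC
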